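import Pool.Agent.Helper12_XQ.Stmt

/-!
Squad XQ (MP_5b0138_an), module U: separation of the orders (SEP) and assembly (UASM).
-/

set_option autoImplicit false

namespace Pool.Agent.XQ.U.H18

open MeasureTheory Filter Topology Real Set Pool.Agent.AEU Pool.Agent.AEU.H12 Pool.Agent.XQ

/-- exact order `κ^(-p) exp (-L κ)` in absolute value -/
def EO (L : ℝ) (f : ℝ → ℝ) (p : ℝ) : Prop :=
  (∃ c : ℝ, 0 < c ∧ ∀ᶠ κ in atTop, c ≤ |f κ * (rexp (L * κ) * κ ^ p)|) ∧
  ∀ q : ℝ, q < p → Tendsto (fun κ => f κ * (rexp (L * κ) * κ ^ q)) atTop (𝓝 0)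

lemma rpow_tend {q p : ℝ} (h : q < p) : Tendsto (fun κ : ℝ => κ ^ (q - p)) atTop (𝓝 0) := by
  have := tendsto_rpow_neg_atTop (y := p - q) (by linarith)
  simpa using this

lemma EO.of_lead {L p c : ℝ} {f : ℝ → ℝ} (h : Lead f L p c) (hc : c ≠ 0) : EO L f p := by
  refine ⟨⟨|c| / 2, by positivity, ?_⟩, ?_⟩
  · have h1 := (h.abs).eventually (lt_mem_nhds (show |c| / 2 < |c| by
      have := abs_pos.mpr hc; linarith))
    filter_upwards [h1] with κ hκ using hκ.le
  · intro q hq
    have h1 := Tendsto.mul h (rpow_tend hq)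
    rw [mul_zero] at h1
    refine h1.congr' ?_
    filter_upwards [eventually_gt_atTop 0] with κ hκ
    rw [mul_assoc, mul_assoc, ← Real.rpow_add hκ]
    congr 3
    ring

lemma EO.of_ord {L p : ℝ} {f : ℝ → ℝ} (h : Ord L p f) : EO L f p := by
  obtain ⟨c, C, κ0, hc, hC, hκ0, h⟩ := h
  refine ⟨⟨c, hc, ?_⟩, ?_⟩
  · filter_upwards [eventually_ge_atTop κ0] with κ hκ
    have hκp : 0 < κ := lt_of_lt_of_le hκ0 hκ
    have hx : 0 < rexp (L * κ) * κ ^ p := mul_pos (exp_pos _) (Real.rpow_pos_of_pos hκp _)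
    have h1 := mul_le_mul_of_nonneg_right (h κ hκ).1 hx.le
    have h2 : c * κ ^ (-p) * rexp (-(L * κ)) * (rexp (L * κ) * κ ^ p) = c := by
      have e1 : κ ^ (-p) * κ ^ p = 1 := by
        rw [← Real.rpow_add hκp, neg_add_cancel, Real.rpow_zero]
      have e2 : rexp (-(L * κ)) * rexp (L * κ) = 1 := by
        rw [← Real.exp_add, neg_add_cancel, Real.exp_zero]
      calc _ = c * (κ ^ (-p) * κ ^ p) * (rexp (-(L * κ)) * rexp (L * κ)) := by ring
        _ = c := by rw [e1, e2]; ring
    rw [h2] at h1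
    exact h1.trans (le_abs_self _)
  · intro q hq
    have h0 := (rpow_tend hq).const_mul C
    rw [mul_zero] at h0
    refine squeeze_zero_norm' ?_ h0
    filter_upwards [eventually_ge_atTop κ0] with κ hκ
    have hκp : 0 < κ := lt_of_lt_of_le hκ0 hκ
    have hx : 0 < rexp (L * κ) * κ ^ q := mul_pos (exp_pos _) (Real.rpow_pos_of_pos hκp _)
    have hf : 0 ≤ f κ := le_trans (by positivity) (h κ hκ).1
    rw [Real.norm_eq_abs, abs_of_nonneg (mul_nonneg hf hx.le)]
    have h1 := mul_le_mul_of_nonneg_right (h κ hκ).2 hx.le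
    refine h1.trans (le_of_eq ?_)
    have e1 : κ ^ (-p) * κ ^ q = κ ^ (q - p) := by
      rw [← Real.rpow_add hκp]; congr 1; ring
    have e2 : rexp (-(L * κ)) * rexp (L * κ) = 1 := by
      rw [← Real.exp_add, neg_add_cancel, Real.exp_zero]
    calc C * κ ^ (-p) * rexp (-(L * κ)) * (rexp (L * κ) * κ ^ q)
        = C * (κ ^ (-p) * κ ^ q) * (rexp (-(L * κ)) * rexp (L * κ)) := by ring
      _ = C * κ ^ (q - p) := by rw [e1, e2]; ring

lemma EO.neg {L p : ℝ} {f : ℝ → ℝ} (h : EO L f p) : EO L (-f) p := by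
  obtain ⟨⟨c, hc, h1⟩, h2⟩ := h
  refine ⟨⟨c, hc, ?_⟩, ?_⟩
  · filter_upwards [h1] with κ hκ
    rwa [Pi.neg_apply, neg_mul, abs_neg]
  · intro q hq
    have := (h2 q hq).neg
    rw [neg_zero] at this
    refine this.congr fun κ => ?_
    rw [Pi.neg_apply, neg_mul]

lemma EO.add_lt {L p p' : ℝ} {f g : ℝ → ℝ} (hf : EO L f p) (hg : EO L g p') (hp : p < p') :
    EO L (f + g) p := by
  obtain ⟨⟨c, hc, h1⟩, h2⟩ := hf
  refine ⟨⟨c / 2, by positivity, ?_⟩, ?_⟩
  · have h3 := (hg.2 p hp).abs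
    rw [abs_zero] at h3
    have h4 := h3.eventually (gt_mem_nhds (show 0 < c / 2 by positivity))
    filter_upwards [h1, h4] with κ a1 a2
    rw [Pi.add_apply, add_mul]
    have := abs_sub_abs_le_abs_sub (f κ * (rexp (L * κ) * κ ^ p)) (-(g κ * (rexp (L * κ) * κ ^ p)))
    rw [abs_neg, sub_neg_eq_add] at this
    linarith
  · intro q hq
    have := (h2 q hq).add (hg.2 q (hq.trans hp))
    rw [add_zero] at this
    refine this.congr fun κ => ?_
    rw [Pi.add_apply, add_mul]

lemma EO.add {L p p' : ℝ} {f g : ℝ → ℝ} (hf : EO L f p) (hg : EO L g p') (hp : p ≠ p') :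
    EO L (f + g) p ∨ EO L (f + g) p' := by
  rcases lt_or_gt_of_ne hp with h | h
  · exact Or.inl (hf.add_lt hg h)
  · right
    rw [add_comm]
    exact hg.add_lt hf h

lemma small_tendsto {L : ℝ} {f : ℝ → ℝ} (h : Small L f) (q : ℝ) :
    Tendsto (fun κ => f κ * (rexp (L * κ) * κ ^ q)) atTop (𝓝 0) := by
  obtain ⟨C, δ, hδ, h⟩ := h
  have h0 := (exp_neg_mul_rpow_tendsto hδ q).const_mul C
  rw [mul_zero] at h0
  refine squeeze_zero_norm' ?_ h0
  filter_upwards [h, eventually_gt_atTop 0] with κ hκ hκp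
  have hx : 0 < rexp (L * κ) * κ ^ q := mul_pos (exp_pos _) (Real.rpow_pos_of_pos hκp _)
  rw [Real.norm_eq_abs, abs_mul, abs_of_pos hx]
  refine (mul_le_mul_of_nonneg_right hκ hx.le).trans (le_of_eq ?_)
  have e1 : rexp (-((L + δ) * κ)) * rexp (L * κ) = rexp (-(δ * κ)) := by
    rw [← Real.exp_add]; congr 1; ring
  calc C * rexp (-((L + δ) * κ)) * (rexp (L * κ) * κ ^ q)
      = C * ((rexp (-((L + δ) * κ)) * rexp (L * κ)) * κ ^ q) := by ring
    _ = _ := by rw [e1]

lemma EO.not_small {L p : ℝ} {f : ℝ → ℝ} (h : EO L f p) (hs : Small L f) : False := by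
  obtain ⟨⟨c, hc, h1⟩, -⟩ := h
  have h3 := (small_tendsto hs p).abs
  rw [abs_zero] at h3
  have h4 := h3.eventually (gt_mem_nhds hc)
  obtain ⟨κ, a1, a2⟩ := (h1.and h4).exists
  linarith

lemma half_ne_nat (j m : ℕ) : (1 / 2 + j : ℝ) ≠ m := by
  intro h
  have h2 : (1 + 2 * j : ℝ) = 2 * m := by linarith
  have h3 : 1 + 2 * j = 2 * m := by exact_mod_cast h2
  omega

/-- SEP -/
theorem sep : SepStmt := by
  intro L fA fB T hL hA hB hT hs
  have hT' : T = 0 ∨ ∃ n : ℕ, 1 ≤ n ∧ n ≤ 2 ∧ EO L T n := by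
    rcases hT with h | h | h | h | h
    · exact Or.inl h
    · exact Or.inr ⟨1, by norm_num, by norm_num, by simpa using EO.of_ord h⟩
    · exact Or.inr ⟨1, by norm_num, by norm_num, by simpa using (EO.of_ord h).neg⟩
    · exact Or.inr ⟨2, by norm_num, by norm_num, by simpa using EO.of_ord h⟩
    · exact Or.inr ⟨2, by norm_num, by norm_num, by simpa using (EO.of_ord h).neg⟩
  have hs' : Small L (fA + fB + T) := hs
  rcases hA with rfl | ⟨m, c, hm, hc, hA⟩
  · rcases hB with rfl | ⟨j, c, hc, hB⟩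
    · rcases hT' with rfl | ⟨n, hn1, hn2, hT'⟩
      · exact ⟨rfl, rfl, rfl⟩
      · rw [zero_add, zero_add] at hs'
        exact (hT'.not_small hs').elim
    · have hB' := EO.of_lead hB hc
      rcases hT' with rfl | ⟨n, hn1, hn2, hT'⟩
      · rw [zero_add, add_zero] at hs'
        exact (hB'.not_small hs').elim
      · rw [zero_add] at hs'
        rcases hB'.add hT' (half_ne_nat j n) with h | h
        · exact (h.not_small hs').elim
        · exact (h.not_small hs').elim
  · have hA' := EO.of_lead hA hc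
    rcases hB with rfl | ⟨j, c', hc', hB⟩
    · rcases hT' with rfl | ⟨n, hn1, hn2, hT'⟩
      · rw [add_zero, add_zero] at hs'
        exact (hA'.not_small hs').elim
      · rw [add_zero] at hs'
        have hmn : (m : ℝ) ≠ n := by
          intro h
          have : m = n := by exact_mod_cast h
          omega
        rcases hA'.add hT' hmn with h | h
        · exact (h.not_small hs').elim
        · exact (h.not_small hs').elim
    · have hB' := EO.of_lead hB hc'
      rcases hT' with rfl | ⟨n, hn1, hn2, hT'⟩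
      · rw [add_zero] at hs'
        rcases hA'.add hB' (half_ne_nat j m).symm with h | h
        · exact (h.not_small hs').elim
        · exact (h.not_small hs').elim
      · have hmn : (m : ℝ) ≠ n := by
          intro h
          have : m = n := by exact_mod_cast h
          omega
        rcases hA'.add hB' (half_ne_nat j m).symm with h | h
        · rcases h.add hT' hmn with h | h
          · exact (h.not_small hs').elim
          · exact (h.not_small hs').elim
        · rcases h.add hT' (half_ne_nat j n) with h | h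
          · exact (h.not_small hs').elim
          · exact (h.not_small hs').elim

lemma lead_tendsto {L p c : ℝ} {f : ℝ → ℝ} (h : Lead f L p c) (hp : 0 < p) :
    Tendsto (fun κ => f κ * rexp (L * κ)) atTop (𝓝 0) := by
  have h1 := Tendsto.mul h (rpow_tend hp)
  rw [mul_zero] at h1
  refine h1.congr' ?_
  filter_upwards [eventually_gt_atTop 0] with κ hκ
  rw [mul_assoc, mul_assoc, ← Real.rpow_add hκ]
  rw [show p + (0 - p) = 0 by ring, Real.rpow_zero, mul_one]

lemma eo_tendsto {L p : ℝ} {f : ℝ → ℝ} (h : EO L f p) (hp : 0 < p) :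
    Tendsto (fun κ => f κ * rexp (L * κ)) atTop (𝓝 0) := by
  have := h.2 0 hp
  simpa using this

lemma lead_zero {L p c : ℝ} (h : Lead 0 L p c) : c = 0 := by
  have h1 : Tendsto (fun κ : ℝ => (0 : ℝ → ℝ) κ * (rexp (L * κ) * κ ^ p)) atTop (𝓝 0) := by
    simp
  exact tendsto_nhds_unique h h1

/-- UASM -/
theorem uasm : UasmStmt := by
  intro hSep hAltA hAltB L gP gQ r AP AQ BP BQ HQ EP J T hL hgP hr hAPl hBPl hAP hAQ hBP hBQ hHQ
    hEP hEPp hJ hT hs
  have hA := hAltA L AP AQ hL hAPl hAP hAQ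
  have hB := hAltB L BP BQ HQ EP hL hBPl hBP hBQ hHQ hEP hEPp
  set fA : ℝ → ℝ := fun κ => SumA L AP κ - SumA L AQ κ with hfA
  set fB : ℝ → ℝ := fun κ => SumB L BP κ + SumE L EP κ - (SumB L BQ κ + SumH L HQ κ) with hfB
  have tA : Tendsto (fun κ => fA κ * rexp (L * κ)) atTop (𝓝 0) := by
    rcases hA with ⟨-, h⟩ | ⟨m, c, hm, hc, h⟩
    · rw [h]; simp
    · exact lead_tendsto h (by exact_mod_cast (by omega : 0 < m))
  have tB : Tendsto (fun κ => fB κ * rexp (L * κ)) atTop (𝓝 0) := by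
    rcases hB with ⟨-, h⟩ | ⟨j, c, hc, h⟩
    · rw [h]; simp
    · exact lead_tendsto h (by positivity)
  have tT : Tendsto (fun κ => T κ * rexp (L * κ)) atTop (𝓝 0) := by
    rcases hT with h | h | h | h | h
    · rw [h]; simp
    · exact eo_tendsto (EO.of_ord h) one_pos
    · have := eo_tendsto (EO.of_ord h).neg one_pos
      rwa [neg_neg] at this
    · exact eo_tendsto (EO.of_ord h) two_pos
    · have := eo_tendsto (EO.of_ord h).neg two_pos
      rwa [neg_neg] at this
  have hs0 : Tendsto (fun κ => (fA κ + fB κ + T κ + ((gQ : ℝ) + r / 2 - gP) * rexp (-(L * κ)) - J κ)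
      * rexp (L * κ)) atTop (𝓝 0) := by
    have := small_tendsto hs 0
    refine this.congr fun κ => ?_
    simp only [hfA, hfB, Real.rpow_zero, mul_one]
    ring
  have ee : ∀ κ : ℝ, rexp (-(L * κ)) * rexp (L * κ) = 1 := by
    intro κ
    rw [← Real.exp_add, neg_add_cancel, Real.exp_zero]
  have tJ : Tendsto (fun κ => J κ * rexp (L * κ)) atTop (𝓝 ((gQ : ℝ) + r / 2 - gP)) := by
    have := (((tA.add tB).add tT).add_const ((gQ : ℝ) + r / 2 - gP)).sub hs0
    simp only [zero_add, sub_zero] at this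
    refine this.congr fun κ => ?_
    have := ee κ
    linear_combination (-((gQ : ℝ) + r / 2 - gP)) * this
  have hJ0 : J = 0 := by
    rcases hJ with h | ⟨c, κ0, hc, hκ0, h⟩
    · exact h
    · exfalso
      have t1 : Tendsto (fun κ : ℝ => c * κ ^ (1 / 2 : ℝ)) atTop atTop :=
        (tendsto_rpow_atTop (by norm_num)).const_mul_atTop hc
      have t2 : Tendsto (fun κ => J κ * rexp (L * κ)) atTop atTop := by
        refine tendsto_atTop_mono' _ ?_ t1
        filter_upwards [eventually_ge_atTop κ0] with κ hκ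
        have h1 := mul_le_mul_of_nonneg_right (h κ hκ) (exp_pos (L * κ)).le
        rw [mul_assoc, ee, mul_one] at h1
        exact h1
      exact not_tendsto_nhds_of_tendsto_atTop t2 _ tJ
  have hlim : (gQ : ℝ) + r / 2 - gP = 0 := by
    rw [hJ0] at tJ
    have : Tendsto (fun κ : ℝ => (0 : ℝ → ℝ) κ * rexp (L * κ)) atTop (𝓝 0) := by simp
    exact tendsto_nhds_unique tJ this
  have hnat : 2 * gQ + r = 2 * gP := by
    have : (2 * gQ + r : ℝ) = 2 * gP := by linarith
    exact_mod_cast this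
  have hr0 : r = 0 := by omega
  have hgg : gP = gQ := by omega
  have hsep := hSep L fA fB T hL
    (by rcases hA with ⟨-, h⟩ | h
        · exact Or.inl h
        · exact Or.inr h)
    (by rcases hB with ⟨-, h⟩ | h
        · exact Or.inl h
        · exact Or.inr h) hT
    (by
      obtain ⟨C, δ, hδ, h⟩ := hs
      refine ⟨C, δ, hδ, ?_⟩
      filter_upwards [h] with κ hκ
      convert hκ using 2
      rw [hJ0, hr0, hgg]
      simp only [hfA, hfB, Pi.zero_apply, Nat.cast_zero]
      ring)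
  obtain ⟨zA, zB, zT⟩ := hsep
  have cA : ConA AP AQ := by
    rcases hA with ⟨h, -⟩ | ⟨m, c, hm, hc, h⟩
    · exact h
    · rw [zA] at h
      exact (hc (lead_zero h)).elim
  have cB : ConB BP BQ HQ EP := by
    rcases hB with ⟨h, -⟩ | ⟨j, c, hc, h⟩
    · exact h
    · rw [zB] at h
      exact (hc (lead_zero h)).elim
  exact ⟨hJ0, zT, hgg, hr0, cB.1, cB.2.1, cA, cB.2.2⟩

end Pool.Agent.XQ.U.H18
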