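import Pool.Agent.Helper16_XQ.StmtG

/-!
Squad XQ (MP_5b0138_an), part G: assembly CQX and CPX.
-/

set_option autoImplicit false

namespace Pool.Agent.XQ

open MeasureTheory Complex Filter Topology Pool.Agent.H62T
open Pool.Agent.H16F (Sublin)
open Pool.Agent.AEU

lemma in_hf18 {ι : Type} [Finite ι] (x : ι → ℂ) (i : ι) : In (x i) (hf x) := fun w =>
  le_ciSup (f := fun i => ip w (x i)) (Set.finite_range _).bddAbove i

lemma touch_of_in18 {X : Finset HP} {h : ℂ → ℝ} {s : HP} {v : ℂ} (hs : s ∈ X)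
    (hf : Fits X h) (hv : ip s.1 v = s.2) (hi : In v h) : s ∈ touch X h := by
  refine Finset.mem_filter.mpr ⟨hs, le_antisymm (hf s hs) ?_⟩
  rw [← hv]
  exact hi s.1

lemma sh3_touch18 {X : Finset HP} {h : ℂ → ℝ} {i j k l : HP} {v w : ℂ}
    (hf' : Fits X h) (hS : Sh3 X h i j k l v w) (hc : (touch X h).card = 4) :
    touch X h = {i, j, k, l} := by
  have iv : In v h := by
    rw [hS.body]; exact in_hf18 ![v, w] 0
  have iw : In w h := by
    rw [hS.body]; exact in_hf18 ![v, w] 1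
  have m1 := touch_of_in18 hS.vi.mem₁ hf' hS.vi.on₁ iv
  have m2 := touch_of_in18 hS.vi.mem₂ hf' hS.vi.on₂ iv
  have m3 := touch_of_in18 hS.wk.mem₁ hf' hS.wk.on₁ iw
  have m4 := touch_of_in18 hS.wk.mem₂ hf' hS.wk.on₂ iw
  obtain ⟨n1, n2, n3, n4, n5, n6⟩ := hS.ne
  have hsub : ({i, j, k, l} : Finset HP) ⊆ touch X h := by
    intro s hs
    simp only [Finset.mem_insert, Finset.mem_singleton] at hs
    rcases hs with rfl | rfl | rfl | rfl
    · exact m1
    · exact m2
    · exact m3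
    · exact m4
  have hcard : ({i, j, k, l} : Finset HP).card = 4 := by
    rw [Finset.card_insert_of_notMem, Finset.card_insert_of_notMem, Finset.card_insert_of_notMem,
      Finset.card_singleton]
    · simpa using n6
    · simp only [Finset.mem_insert, Finset.mem_singleton, not_or]
      exact ⟨n4, n5⟩
    · simp only [Finset.mem_insert, Finset.mem_singleton, not_or]
      exact ⟨n1, n2, n3⟩
  exact (Finset.eq_of_subset_of_card_le hsub (by rw [hc, hcard])).symm

/-- CQX -/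
theorem cqx (hEVR : EvrStatement) (hCL5 : Cl5Statement) (hCL4 : Cl4Statement)
    (hXC : XcStatement) (hXE : XeStatement) (hXF : XfStatement) (hQTX : QtxStatement) :
    CqxStatement := by
  intro P Q L hyp gx pq h hU hl h4
  have env := hEVR P Q L gx.gen.pg gx.gen.g1 pq hyp
  by_cases h5 : 5 ≤ (touch Q h).card
  · obtain ⟨g, hg⟩ := hCL5 Q P L env.symm h hU.1 hl h5
    exact (hU.2 ⟨g, hg⟩).elim
  · have hc : (touch Q h).card = 4 := by omega
    obtain ⟨hmin, hsh⟩ := hCL4 Q P L env.symm h hU hl hc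
    rcases hsh with ⟨x, s, hC, -⟩ | ⟨i, j, q, r, v, x, y, hE⟩ | ⟨i, j, k, l, v, w, h3⟩ |
      ⟨i, j, k, s, v, w, x, hF⟩
    · exact (hXC P Q L env.symm gx.gen.g1 h x s hC hmin hl).elim
    · exact (hXE P Q L env.symm gx hyp.gh h i j q r v x y hE hU hmin hl).elim
    · obtain ⟨i', j', k', l', v', w', g1, g2, hT, -⟩ :=
        hQTX P Q L env.symm gx.gen.g1 h i j k l v w h3 hmin hU hl
      exact ⟨i', j', k', l', v', w', g1, g2, hT, sh3_touch18 hU.1.fits hT.sh hc⟩
    · exact (hXF P Q L env.symm gx.gen.g1 h i j k s v w x hF hU hl).elim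

/-- CPX -/
theorem cpx (hEVR : EvrStatement) (hCL5 : Cl5Statement) (hCL4 : Cl4Statement)
    (hC4R : C4rStatement) : CpxStatement := by
  intro P Q L hyp gx pq h hU hl h4
  have env := hEVR P Q L gx.gen.pg gx.gen.g1 pq hyp
  by_cases h5 : 5 ≤ (touch P h).card
  · obtain ⟨g, hg⟩ := hCL5 P Q L env h hU.1 hl h5
    exact (hU.2 ⟨g, hg⟩).elim
  · have hc : (touch P h).card = 4 := by omega
    obtain ⟨hmin, hsh⟩ := hCL4 P Q L env h hU hl hc
    refine ⟨hmin, ?_⟩
    rcases hsh with ⟨x, s, hC, -⟩ | hE | h3 | hF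
    · exfalso
      obtain ⟨e, he⟩ := hC4R P gx.gen.pg h x s hC hmin
      have hne : ∀ a b : Fin 4, a ≠ b → s (e a) ≠ s (e b) := fun a b hab h =>
        hab (e.injective (hC.inj h))
      exact (gx.gen.g1.four (s (e 0)) (hC.mem _) (s (e 1)) (hC.mem _) (s (e 2)) (hC.mem _)
        (s (e 3)) (hC.mem _) (hne 0 1 (by decide)) (hne 0 2 (by decide)) (hne 0 3 (by decide))
        (hne 1 2 (by decide)) (hne 1 3 (by decide)) (hne 2 3 (by decide))).2 he
    · exact Or.inl hE
    · exact Or.inr (Or.inl h3)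
    · exact Or.inr (Or.inr hF)

end Pool.Agent.XQ
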