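import Pool.Agent.Helper36_XQ.Stmt4

set_option autoImplicit false

namespace Pool.Agent.XQ.K4.H18

open MeasureTheory Complex Filter Topology Pool.Agent.H62T Pool.Agent.H16F Pool.Agent.XQ.K4
open scoped ENNReal NNReal

/-! ### Splitting sums and integrals -/

theorem lint_append {m k : ℕ} (F : (Fin (m + k) → ℂ) → ℝ≥0∞) (hF : Measurable F) :
    ∫⁻ z, F z = ∫⁻ z1 : Fin m → ℂ, ∫⁻ z2 : Fin k → ℂ, F (Fin.append z1 z2) := by
  have h1 := volume_measurePreserving_sumPiEquivProdPi_symm (fun _ : Fin m ⊕ Fin k => ℂ)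
  have h2 := volume_measurePreserving_piCongrLeft (fun _ : Fin (m + k) => ℂ)
    (finSumFinEquiv (m := m) (n := k))
  rw [← h2.lintegral_comp_emb (MeasurableEquiv.measurableEmbedding _),
    ← h1.lintegral_comp_emb (MeasurableEquiv.measurableEmbedding _), Measure.volume_eq_prod,
    lintegral_prod]
  · refine lintegral_congr fun z1 => lintegral_congr fun z2 => ?_
    congr 1
    funext j
    refine Fin.addCases (fun i => ?_) (fun i => ?_) j
    · rw [Fin.append_left]
      have := Equiv.piCongrLeft_apply_apply (fun _ : Fin (m + k) => ℂ)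
        (finSumFinEquiv (m := m) (n := k))
        ((MeasurableEquiv.sumPiEquivProdPi fun _ : Fin m ⊕ Fin k => ℂ).symm (z1, z2))
        (Sum.inl i)
      rw [finSumFinEquiv_apply_left] at this
      exact this
    · rw [Fin.append_right]
      have := Equiv.piCongrLeft_apply_apply (fun _ : Fin (m + k) => ℂ)
        (finSumFinEquiv (m := m) (n := k))
        ((MeasurableEquiv.sumPiEquivProdPi fun _ : Fin m ⊕ Fin k => ℂ).symm (z1, z2))
        (Sum.inr i)
      rw [finSumFinEquiv_apply_right] at this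
      exact this
  · exact ((hF.comp (MeasurableEquiv.measurable _)).comp
      (MeasurableEquiv.measurable _)).aemeasurable

theorem sum_append {m k : ℕ} {β : Type} [AddCommMonoid β]
    (f : (Fin (m + k) → Finset (Fin 4)) → β) :
    ∑ A, f A = ∑ A1 : Fin m → Finset (Fin 4), ∑ A2 : Fin k → Finset (Fin 4),
      f (Fin.append A1 A2) := by
  rw [← Fintype.sum_prod_type' (f := fun A1 A2 => f (Fin.append A1 A2))]
  symm
  exact Equiv.sum_comp (Fin.appendEquiv m k) f

theorem append_meas {α : Type*} [MeasurableSpace α] {m k : ℕ} {f : α → Fin m → ℂ}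
    {g : α → Fin k → ℂ} (hf : Measurable f) (hg : Measurable g) :
    Measurable fun a => (Fin.append (f a) (g a) : Fin (m + k) → ℂ) := by
  rw [measurable_pi_iff]
  intro j
  refine Fin.addCases (fun i => ?_) (fun i => ?_) j
  · simp only [Fin.append_left]
    exact (measurable_pi_apply i).comp hf
  · simp only [Fin.append_right]
    exact (measurable_pi_apply i).comp hg

theorem cons_meas {α : Type*} [MeasurableSpace α] {m : ℕ} {f : α → ℂ}
    {g : α → Fin m → ℂ} (hf : Measurable f) (hg : Measurable g) :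
    Measurable fun a => (Fin.cons (f a) (g a) : Fin (m + 1) → ℂ) := by
  rw [measurable_pi_iff]
  intro j
  refine Fin.cases ?_ (fun i => ?_) j
  · simp only [Fin.cons_zero]
    exact hf
  · simp only [Fin.cons_succ]
    exact (measurable_pi_apply i).comp hg

/-! ### One arc -/

open Classical in
/-- the weight of all the chains which visit `M` and avoid `E` -/
noncomputable def CC (u : Fin 4 → ℂ) (h : Fin 4 → ℝ) {m : ℕ} (τ : Fin (m + 1) → ℝ)
    (M E : Finset (Fin 4)) (x : ℂ) (ζ : Fin m → ℂ) (y : ℂ) : ℝ≥0∞ :=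
  ∑ A : Fin (m + 1) → Finset (Fin 4), if Vis M E A then cw u h τ A x ζ y else 0

theorem CC_meas_comp (u : Fin 4 → ℂ) (h : Fin 4 → ℝ) {α : Type*} [MeasurableSpace α] {m : ℕ}
    (τ : Fin (m + 1) → ℝ) (M E : Finset (Fin 4)) {f k : α → ℂ} {g : α → Fin m → ℂ}
    (hf : Measurable f) (hg : Measurable g) (hk : Measurable k) :
    Measurable fun a => CC u h τ M E (f a) (g a) (k a) := by
  classical
  unfold CC
  refine Finset.measurable_fun_sum _ fun A _ => ?_
  split_ifs
  · exact cw_meas_comp u h τ A hf hg hk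
  · exact measurable_const

theorem CC_int (u : Fin 4 → ℂ) (h : Fin 4 → ℝ) {m : ℕ} (τ : Fin (m + 1) → ℝ)
    (hτ : ∀ j, 0 < τ j) (M E : Finset (Fin 4)) (x y : ℂ) :
    ∫⁻ ζ : Fin m → ℂ, CC u h τ M E x ζ y = ENNReal.ofReal (kME u h M E (∑ j, τ j) x y) := by
  classical
  have hpos : 0 < ∑ j, τ j := Finset.sum_pos (fun j _ => hτ _) Finset.univ_nonempty
  rw [kME_eq u h, ENNReal.ofReal_sum_of_nonneg fun A _ => kA_nonneg u h hpos x y A]
  simp only [chain u h m τ hτ]
  rw [Finset.sum_comm]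
  unfold CC
  rw [lintegral_finsetSum]
  · refine Finset.sum_congr rfl fun A _ => ?_
    rw [Finset.sum_ite_eq]
    by_cases hV : Vis M E A
    · rw [if_pos ((vis_iff M E A).mp hV)]
      simp only [if_pos hV]
    · rw [if_neg (fun h => hV ((vis_iff M E A).mpr h))]
      simp only [if_neg hV, lintegral_zero]
  · intro A _
    split_ifs
    · exact cw_meas_comp u h τ A measurable_const measurable_id measurable_const
    · exact measurable_const

/-- integration of an arc against a function of the end point -/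
theorem CC_arc (u : Fin 4 → ℂ) (h : Fin 4 → ℝ) {m : ℕ} (τ : Fin (m + 1) → ℝ)
    (hτ : ∀ j, 0 < τ j) (M E : Finset (Fin 4)) (x : ℂ) {f : ℂ → ℝ≥0∞} (hf : Measurable f) :
    ∫⁻ ζ : Fin m → ℂ, ∫⁻ y, CC u h τ M E x ζ y * f y =
      ∫⁻ y, ENNReal.ofReal (kME u h M E (∑ j, τ j) x y) * f y := by
  rw [lintegral_lintegral_swap]
  · refine lintegral_congr fun y => ?_
    have hm : Measurable fun ζ : Fin m → ℂ => CC u h τ M E x ζ y :=
      CC_meas_comp u h τ M E measurable_const measurable_id measurable_const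
    rw [lintegral_mul_const _ hm, CC_int u h τ hτ]
  · exact ((CC_meas_comp u h τ M E measurable_const measurable_fst measurable_snd).mul
      (hf.comp measurable_snd)).aemeasurable

theorem kME_meas_comp (u : Fin 4 → ℂ) (h : Fin 4 → ℝ) {α : Type*} [MeasurableSpace α]
    (M E : Finset (Fin 4)) {f : α → ℝ} {g k : α → ℂ} (hf : Measurable f) (hg : Measurable g)
    (hk : Measurable k) : Measurable fun a => kME u h M E (f a) (g a) (k a) := by
  simp only [kME_eq u h]
  exact Finset.measurable_fun_sum _ fun A _ => kA_meas_comp u h A hf hg hk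

/-! ### Splitting the product -/

section split
variable {p q r : ℕ}

/-- the first part of a tuple -/
def p0 {β : Type} (p q r : ℕ) (f : Fin ((p + 1) + ((q + 1) + (r + 1))) → β) : Fin (p + 1) → β :=
  fun i => f (Fin.castAdd _ i)

/-- the second part of a tuple -/
def p1 {β : Type} (p q r : ℕ) (f : Fin ((p + 1) + ((q + 1) + (r + 1))) → β) : Fin (q + 1) → β :=
  fun i => f (Fin.natAdd _ (Fin.castAdd _ i))

/-- the third part of a tuple -/
def p2 {β : Type} (p q r : ℕ) (f : Fin ((p + 1) + ((q + 1) + (r + 1))) → β) : Fin (r + 1) → β :=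
  fun i => f (Fin.natAdd _ (Fin.natAdd _ i))

/-- three parts together -/
def ap {β : Type} (f0 : Fin (p + 1) → β) (f1 : Fin (q + 1) → β) (f2 : Fin (r + 1) → β) :
    Fin ((p + 1) + ((q + 1) + (r + 1))) → β := Fin.append f0 (Fin.append f1 f2)

theorem ap0 {β : Type} (f0 : Fin (p + 1) → β) (f1 : Fin (q + 1) → β) (f2 : Fin (r + 1) → β)
    (j : Fin ((p + 1) + ((q + 1) + (r + 1)))) (i : Fin (p + 1)) (h : j.val = i.val) :
    ap f0 f1 f2 j = f0 i := by
  have : j = Fin.castAdd _ i := Fin.ext h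
  rw [this, ap, Fin.append_left]

theorem ap1 {β : Type} (f0 : Fin (p + 1) → β) (f1 : Fin (q + 1) → β) (f2 : Fin (r + 1) → β)
    (j : Fin ((p + 1) + ((q + 1) + (r + 1)))) (i : Fin (q + 1)) (h : j.val = p + 1 + i.val) :
    ap f0 f1 f2 j = f1 i := by
  have : j = Fin.natAdd _ (Fin.castAdd _ i) := Fin.ext h
  rw [this, ap, Fin.append_right, Fin.append_left]

theorem ap2 {β : Type} (f0 : Fin (p + 1) → β) (f1 : Fin (q + 1) → β) (f2 : Fin (r + 1) → β)
    (j : Fin ((p + 1) + ((q + 1) + (r + 1)))) (i : Fin (r + 1))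
    (h : j.val = p + 1 + (q + 1 + i.val)) :
    ap f0 f1 f2 j = f2 i := by
  have : j = Fin.natAdd _ (Fin.natAdd _ i) := Fin.ext h
  rw [this, ap, Fin.append_right, Fin.append_right]

theorem val_succ {n : ℕ} [NeZero n] (j : Fin n) (h : j.val + 1 < n) : (j + 1).val = j.val + 1 := by
  rw [Fin.val_add, Fin.val_one', Nat.mod_eq_of_lt (show 1 < n by omega), Nat.mod_eq_of_lt h]

theorem val_succ_last {n : ℕ} [NeZero n] (j : Fin n) (hn : 1 < n) (h : j.val + 1 = n) :
    (j + 1).val = 0 := by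
  rw [Fin.val_add, Fin.val_one', Nat.mod_eq_of_lt hn, h, Nat.mod_self]

/-- the weight is the product of the weights of the three arcs -/
theorem wt_split (u : Fin 4 → ℂ) (h : Fin 4 → ℝ) [NeZero ((p + 1) + ((q + 1) + (r + 1)))]
    (τ : Fin ((p + 1) + ((q + 1) + (r + 1))) → ℝ) (hτ : ∀ j, 0 < τ j)
    (A0 : Fin (p + 1) → Finset (Fin 4)) (A1 : Fin (q + 1) → Finset (Fin 4))
    (A2 : Fin (r + 1) → Finset (Fin 4)) (x z y : ℂ) (z0 : Fin p → ℂ) (z1 : Fin q → ℂ)
    (z2 : Fin r → ℂ) :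
    ENNReal.ofReal (wt u h τ (ap (Fin.cons x z0) (Fin.cons z z1) (Fin.cons y z2)) (ap A0 A1 A2)) =
      cw u h (p0 p q r τ) A0 x z0 z * (cw u h (p1 p q r τ) A1 z z1 y *
        cw u h (p2 p q r τ) A2 y z2 x) := by
  unfold wt cw
  rw [ENNReal.ofReal_prod_of_nonneg fun j _ => kA_nonneg u h (hτ j) _ _ _,
    Fin.prod_univ_add (a := p + 1) (b := (q + 1) + (r + 1)),
    Fin.prod_univ_add (a := q + 1) (b := r + 1)]
  congr 1
  · refine Finset.prod_congr rfl fun j _ => ?_
    rw [ap0 A0 A1 A2 _ j rfl, ap0 _ _ _ _ j rfl]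
    congr 2
    refine Fin.lastCases ?_ (fun i => ?_) j
    · rw [Fin.snoc_last, ap1 _ _ _ _ 0, Fin.cons_zero]
      rw [val_succ _ (by simp)]
      simp
    · rw [Fin.snoc_castSucc, ap0 _ _ _ _ i.succ, Fin.cons_succ]
      rw [val_succ _ (by simp; omega)]
      simp
  · congr 1
    · refine Finset.prod_congr rfl fun j _ => ?_
      rw [ap1 A0 A1 A2 _ j rfl, ap1 _ _ _ _ j rfl]
      congr 2
      refine Fin.lastCases ?_ (fun i => ?_) j
      · rw [Fin.snoc_last, ap2 _ _ _ _ 0, Fin.cons_zero]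
        rw [val_succ _ (by simp; omega)]
        simp
        omega
      · rw [Fin.snoc_castSucc, ap1 _ _ _ _ i.succ, Fin.cons_succ]
        rw [val_succ _ (by simp; omega)]
        simp
        omega
    · refine Finset.prod_congr rfl fun j _ => ?_
      rw [ap2 A0 A1 A2 _ j rfl, ap2 _ _ _ _ j rfl]
      congr 2
      refine Fin.lastCases ?_ (fun i => ?_) j
      · rw [Fin.snoc_last, ap0 _ _ _ _ 0, Fin.cons_zero]
        rw [val_succ_last _ (by omega) (by simp; omega)]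
        simp
      · rw [Fin.snoc_castSucc, ap2 _ _ _ _ i.succ, Fin.cons_succ]
        rw [val_succ _ (by simp; omega)]
        simp
        omega

theorem ofNat_val {n : ℕ} [NeZero n] {l : ℕ} (h : l < n) : (Fin.ofNat n l).val = l :=
  Nat.mod_eq_of_lt h

/-- the condition on the three arcs -/
theorem pa_iff [NeZero ((p + 1) + ((q + 1) + (r + 1)))] (M E : Fin 3 → Finset (Fin 4))
    (S : Fin 3 → Set ℂ) (A0 : Fin (p + 1) → Finset (Fin 4)) (A1 : Fin (q + 1) → Finset (Fin 4))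
    (A2 : Fin (r + 1) → Finset (Fin 4)) (x z y : ℂ) (z0 : Fin p → ℂ) (z1 : Fin q → ℂ)
    (z2 : Fin r → ℂ) :
    PA M E S (p + 1) (p + 1 + (q + 1)) (ap (Fin.cons x z0) (Fin.cons z z1) (Fin.cons y z2))
      (ap A0 A1 A2) ↔ (x ∈ S 0 ∧ z ∈ S 1 ∧ y ∈ S 2) ∧ Vis (M 0) (E 0) A0 ∧
        Vis (M 1) (E 1) A1 ∧ Vis (M 2) (E 2) A2 := by
  have e0 : ∀ (l : ℕ) (hl : l < p + 1), ap A0 A1 A2 (Fin.ofNat _ l) = A0 ⟨l, hl⟩ := by
    intro l hl
    exact ap0 _ _ _ _ ⟨l, hl⟩ (ofNat_val (by omega))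
  have e1 : ∀ (l : ℕ) (hl : l < q + 1), ap A0 A1 A2 (Fin.ofNat _ (p + 1 + l)) = A1 ⟨l, hl⟩ := by
    intro l hl
    exact ap1 _ _ _ _ ⟨l, hl⟩ (ofNat_val (by omega))
  have e2 : ∀ (l : ℕ) (hl : l < r + 1),
      ap A0 A1 A2 (Fin.ofNat _ (p + 1 + (q + 1) + l)) = A2 ⟨l, hl⟩ := by
    intro l hl
    exact ap2 _ _ _ _ ⟨l, hl⟩ (by rw [ofNat_val (by omega), Nat.add_assoc])
  have x0 : ap (Fin.cons x z0) (Fin.cons z z1) (Fin.cons y z2) 0 = x := by
    rw [ap0 _ _ _ _ 0 rfl]
    rfl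
  have x1 : ap (Fin.cons x z0) (Fin.cons z z1) (Fin.cons y z2) (Fin.ofNat _ (p + 1)) = z := by
    rw [ap1 _ _ _ _ 0 (by rw [ofNat_val (by omega)]; rfl)]
    rfl
  have x2 : ap (Fin.cons x z0) (Fin.cons z z1) (Fin.cons y z2)
      (Fin.ofNat _ (p + 1 + (q + 1))) = y := by
    rw [ap2 _ _ _ _ 0 (by rw [ofNat_val (by omega)]; simp)]
    rfl
  unfold PA Vis
  rw [x0, x1, x2]
  constructor
  · rintro ⟨h1, h2, h3, ⟨h4, h5⟩, ⟨h6, h7⟩, h8, h9⟩
    refine ⟨⟨h1, h2, h3⟩, ⟨?_, ?_⟩, ⟨?_, ?_⟩, ?_, ?_⟩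
    · intro s hs
      obtain ⟨l, hl, hl'⟩ := h4 s hs
      rw [e0 l hl] at hl'
      exact ⟨_, hl'⟩
    · intro j
      have := h5 j.val j.2
      rwa [e0 j.val j.2] at this
    · intro s hs
      obtain ⟨l, hl1, hl2, hl'⟩ := h6 s hs
      obtain ⟨l', rfl⟩ := Nat.exists_eq_add_of_le hl1
      rw [e1 l' (by omega)] at hl'
      exact ⟨_, hl'⟩
    · intro j
      have := h7 (p + 1 + j.val) (by omega) (by omega)
      rwa [e1 j.val j.2] at this
    · intro s hs
      obtain ⟨l, hl1, hl2, hl'⟩ := h8 s hs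
      obtain ⟨l', rfl⟩ := Nat.exists_eq_add_of_le hl1
      rw [e2 l' (by omega)] at hl'
      exact ⟨_, hl'⟩
    · intro j
      have := h9 (p + 1 + (q + 1) + j.val) (by omega) (by omega)
      rwa [e2 j.val j.2] at this
  · rintro ⟨⟨h1, h2, h3⟩, ⟨h4, h5⟩, ⟨h6, h7⟩, h8, h9⟩
    refine ⟨h1, h2, h3, ⟨?_, ?_⟩, ⟨?_, ?_⟩, ?_, ?_⟩
    · intro s hs
      obtain ⟨j, hj⟩ := h4 s hs
      refine ⟨j.val, j.2, ?_⟩
      rw [e0 j.val j.2]
      exact hj
    · intro l hl
      rw [e0 l hl]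
      exact h5 _
    · intro s hs
      obtain ⟨j, hj⟩ := h6 s hs
      refine ⟨p + 1 + j.val, by omega, by omega, ?_⟩
      rw [e1 j.val j.2]
      exact hj
    · intro l hl1 hl2
      obtain ⟨l', rfl⟩ := Nat.exists_eq_add_of_le hl1
      rw [e1 l' (by omega)]
      exact h7 _
    · intro s hs
      obtain ⟨j, hj⟩ := h8 s hs
      refine ⟨p + 1 + (q + 1) + j.val, by omega, by omega, ?_⟩
      rw [e2 j.val j.2]
      exact hj
    · intro l hl1 hl2
      obtain ⟨l', rfl⟩ := Nat.exists_eq_add_of_le hl1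
      rw [e2 l' (by omega)]
      exact h9 _

open Classical in
/-- the sum over the labels -/
theorem sum_split (u : Fin 4 → ℂ) (h : Fin 4 → ℝ) [NeZero ((p + 1) + ((q + 1) + (r + 1)))]
    (τ : Fin ((p + 1) + ((q + 1) + (r + 1))) → ℝ) (hτ : ∀ j, 0 < τ j)
    (M E : Fin 3 → Finset (Fin 4)) (S : Fin 3 → Set ℂ) (x z y : ℂ) (z0 : Fin p → ℂ)
    (z1 : Fin q → ℂ) (z2 : Fin r → ℂ) :
    (∑ A, if PA M E S (p + 1) (p + 1 + (q + 1))
        (ap (Fin.cons x z0) (Fin.cons z z1) (Fin.cons y z2)) A then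
        ENNReal.ofReal (wt u h τ (ap (Fin.cons x z0) (Fin.cons z z1) (Fin.cons y z2)) A) else 0) =
      (S 0).indicator (fun _ => 1) x * (CC u h (p0 p q r τ) (M 0) (E 0) x z0 z *
        ((S 1).indicator (fun _ => 1) z * (CC u h (p1 p q r τ) (M 1) (E 1) z z1 y *
          ((S 2).indicator (fun _ => 1) y * CC u h (p2 p q r τ) (M 2) (E 2) y z2 x)))) := by
  have hR : (S 0).indicator (fun _ => (1 : ℝ≥0∞)) x * (CC u h (p0 p q r τ) (M 0) (E 0) x z0 z *
        ((S 1).indicator (fun _ => 1) z * (CC u h (p1 p q r τ) (M 1) (E 1) z z1 y *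
          ((S 2).indicator (fun _ => 1) y * CC u h (p2 p q r τ) (M 2) (E 2) y z2 x)))) =
      ((S 0).indicator (fun _ => 1) x * (S 1).indicator (fun _ => 1) z *
        (S 2).indicator (fun _ => 1) y) * (CC u h (p0 p q r τ) (M 0) (E 0) x z0 z *
          (CC u h (p1 p q r τ) (M 1) (E 1) z z1 y * CC u h (p2 p q r τ) (M 2) (E 2) y z2 x)) := by
    ring
  rw [hR]
  have hL : (∑ A, if PA M E S (p + 1) (p + 1 + (q + 1))
        (ap (Fin.cons x z0) (Fin.cons z z1) (Fin.cons y z2)) A then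
        ENNReal.ofReal (wt u h τ (ap (Fin.cons x z0) (Fin.cons z z1) (Fin.cons y z2)) A) else 0) =
      ∑ A0 : Fin (p + 1) → Finset (Fin 4), ∑ A1 : Fin (q + 1) → Finset (Fin 4),
        ∑ A2 : Fin (r + 1) → Finset (Fin 4),
        ((S 0).indicator (fun _ => 1) x * (S 1).indicator (fun _ => 1) z *
        (S 2).indicator (fun _ => 1) y) *
        ((if Vis (M 0) (E 0) A0 then cw u h (p0 p q r τ) A0 x z0 z else 0) *
        ((if Vis (M 1) (E 1) A1 then cw u h (p1 p q r τ) A1 z z1 y else 0) *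
        (if Vis (M 2) (E 2) A2 then cw u h (p2 p q r τ) A2 y z2 x else 0))) := by
    rw [sum_append (m := p + 1) (k := (q + 1) + (r + 1))]
    refine Finset.sum_congr rfl fun A0 _ => ?_
    rw [sum_append (m := q + 1) (k := r + 1)]
    refine Finset.sum_congr rfl fun A1 _ => Finset.sum_congr rfl fun A2 _ => ?_
    have h1 := wt_split u h τ hτ A0 A1 A2 x z y z0 z1 z2
    have h2 := pa_iff M E S A0 A1 A2 x z y z0 z1 z2
    show (if PA M E S (p + 1) (p + 1 + (q + 1))
        (ap (Fin.cons x z0) (Fin.cons z z1) (Fin.cons y z2)) (ap A0 A1 A2) then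
        ENNReal.ofReal (wt u h τ (ap (Fin.cons x z0) (Fin.cons z z1) (Fin.cons y z2))
          (ap A0 A1 A2)) else 0) = _
    rw [h1, if_congr h2 rfl rfl]
    by_cases a0 : x ∈ S 0 <;> by_cases a1 : z ∈ S 1 <;> by_cases a2 : y ∈ S 2 <;>
    by_cases b0 : Vis (M 0) (E 0) A0 <;> by_cases b1 : Vis (M 1) (E 1) A1 <;>
    by_cases b2 : Vis (M 2) (E 2) A2 <;> simp [a0, a1, a2, b0, b1, b2]
  rw [hL]
  unfold CC
  simp only [← Finset.mul_sum, ← Finset.sum_mul]

/-- the durations of the three arcs -/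
theorem dur0 [NeZero ((p + 1) + ((q + 1) + (r + 1)))]
    (τ : Fin ((p + 1) + ((q + 1) + (r + 1))) → ℝ) :
    dur τ 0 (p + 1) = ∑ j, p0 p q r τ j := by
  unfold dur
  rw [Finset.sum_Ico_eq_sum_range, Nat.sub_zero,
    ← Fin.sum_univ_eq_sum_range (fun l => τ (Fin.ofNat _ (0 + l)))]
  refine Finset.sum_congr rfl fun j _ => ?_
  unfold p0
  congr 1
  apply Fin.ext
  rw [ofNat_val (by omega)]
  simp

theorem dur1 [NeZero ((p + 1) + ((q + 1) + (r + 1)))]
    (τ : Fin ((p + 1) + ((q + 1) + (r + 1))) → ℝ) :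
    dur τ (p + 1) (p + 1 + (q + 1)) = ∑ j, p1 p q r τ j := by
  unfold dur
  rw [Finset.sum_Ico_eq_sum_range, Nat.add_sub_cancel_left,
    ← Fin.sum_univ_eq_sum_range (fun l => τ (Fin.ofNat _ (p + 1 + l)))]
  refine Finset.sum_congr rfl fun j _ => ?_
  unfold p1
  congr 1
  apply Fin.ext
  rw [ofNat_val (by omega)]
  simp

theorem dur2 [NeZero ((p + 1) + ((q + 1) + (r + 1)))]
    (τ : Fin ((p + 1) + ((q + 1) + (r + 1))) → ℝ) :
    dur τ (p + 1 + (q + 1)) ((p + 1) + ((q + 1) + (r + 1))) = ∑ j, p2 p q r τ j := by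
  unfold dur
  rw [Finset.sum_Ico_eq_sum_range,
    show (p + 1) + ((q + 1) + (r + 1)) - (p + 1 + (q + 1)) = r + 1 by omega,
    ← Fin.sum_univ_eq_sum_range (fun l => τ (Fin.ofNat _ (p + 1 + (q + 1) + l)))]
  refine Finset.sum_congr rfl fun j _ => ?_
  unfold p2
  congr 1
  apply Fin.ext
  rw [ofNat_val (by omega)]
  simp
  omega

/-- splitting the integral -/
theorem lint6 (G : (Fin ((p + 1) + ((q + 1) + (r + 1))) → ℂ) → ℝ≥0∞) (hG : Measurable G) :
    ∫⁻ X, G X = ∫⁻ x : ℂ, ∫⁻ z0 : Fin p → ℂ, ∫⁻ z : ℂ, ∫⁻ z1 : Fin q → ℂ, ∫⁻ y : ℂ,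
      ∫⁻ z2 : Fin r → ℂ, G (ap (Fin.cons x z0) (Fin.cons z z1) (Fin.cons y z2)) := by
  rw [lint_append (m := p + 1) (k := (q + 1) + (r + 1)) G hG]
  have hm0 : Measurable fun X0 : Fin (p + 1) → ℂ => ∫⁻ X' : Fin ((q + 1) + (r + 1)) → ℂ,
      G (Fin.append X0 X') :=
    (hG.comp (append_meas measurable_fst measurable_snd)).lintegral_prod_right'
  rw [lint_cons _ hm0]
  refine lintegral_congr fun x => lintegral_congr fun z0 => ?_
  have hm1 : Measurable fun X' : Fin ((q + 1) + (r + 1)) → ℂ =>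
      G (Fin.append (Fin.cons x z0 : Fin (p + 1) → ℂ) X') :=
    hG.comp (append_meas measurable_const measurable_id)
  rw [lint_append (m := q + 1) (k := r + 1) _ hm1]
  have hm2 : Measurable fun X1 : Fin (q + 1) → ℂ => ∫⁻ X2 : Fin (r + 1) → ℂ,
      G (Fin.append (Fin.cons x z0 : Fin (p + 1) → ℂ) (Fin.append X1 X2)) :=
    (hG.comp (append_meas measurable_const
      (append_meas measurable_fst measurable_snd))).lintegral_prod_right'
  rw [lint_cons _ hm2]
  refine lintegral_congr fun z => lintegral_congr fun z1 => ?_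
  have hm3 : Measurable fun X2 : Fin (r + 1) → ℂ =>
      G (Fin.append (Fin.cons x z0 : Fin (p + 1) → ℂ)
        (Fin.append (Fin.cons z z1 : Fin (q + 1) → ℂ) X2)) :=
    hG.comp (append_meas measurable_const (append_meas measurable_const measurable_id))
  rw [lint_cons _ hm3]
  rfl

end split

theorem PA_meas {n : ℕ} [NeZero n] (M E : Fin 3 → Finset (Fin 4)) (S : Fin 3 → Set ℂ)
    (hS : ∀ i, MeasurableSet (S i)) (a b : ℕ) (A : Fin n → Finset (Fin 4)) :
    MeasurableSet {x : Fin n → ℂ | PA M E S a b x A} := by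
  unfold PA
  have h0 : Measurable fun x : Fin n → ℂ => x 0 := measurable_pi_apply 0
  have h1 : Measurable fun x : Fin n → ℂ => x (Fin.ofNat n a) := measurable_pi_apply _
  have h2 : Measurable fun x : Fin n → ℂ => x (Fin.ofNat n b) := measurable_pi_apply _
  exact (h0 (hS 0)).inter ((h1 (hS 1)).inter ((h2 (hS 2)).inter (MeasurableSet.const _)))

theorem setlint {X : Type} [MeasurableSpace X] {μ : Measure X} {S : Set X} (hS : MeasurableSet S)
    (f : X → ℝ≥0∞) : ∫⁻ x in S, f x ∂μ = ∫⁻ x, S.indicator (fun _ => 1) x * f x ∂μ := by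
  rw [← lintegral_indicator hS]
  refine lintegral_congr fun x => ?_
  by_cases hx : x ∈ S <;> simp [hx]

theorem ind_meas {S : Set ℂ} (hS : MeasurableSet S) {α : Type*} [MeasurableSpace α] {f : α → ℂ}
    (hf : Measurable f) : Measurable fun a => S.indicator (fun _ => (1 : ℝ≥0∞)) (f a) :=
  (measurable_const.indicator hS).comp hf

theorem cut : CutStatement := by
  classical
  intro u h n _ τ M E S a b hτ ha hab hb hS
  obtain ⟨p, rfl⟩ : ∃ p, a = p + 1 := ⟨a - 1, by omega⟩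
  obtain ⟨q, rfl⟩ : ∃ q, b = p + 1 + (q + 1) := ⟨b - (p + 1) - 1, by omega⟩
  obtain ⟨r, rfl⟩ : ∃ r, n = (p + 1) + ((q + 1) + (r + 1)) :=
    ⟨n - (p + 1) - (q + 1) - 1, by omega⟩
  rw [dur0, dur1, dur2]
  have hτ0 : ∀ j, 0 < p0 p q r τ j := fun j => hτ _
  have hτ1 : ∀ j, 0 < p1 p q r τ j := fun j => hτ _
  have hτ2 : ∀ j, 0 < p2 p q r τ j := fun j => hτ _
  have hGA : ∀ A, Measurable fun X => if PA M E S (p + 1) (p + 1 + (q + 1)) X A then
      ENNReal.ofReal (wt u h τ X A) else 0 := fun A =>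
    Measurable.ite (PA_meas M E S hS _ _ A) (ENNReal.measurable_ofReal.comp (wt_meas u h τ A))
      measurable_const
  unfold Ms
  rw [← lintegral_finsetSum _ fun A _ => hGA A,
    lint6 _ (Finset.measurable_fun_sum _ fun A _ => hGA A)]
  simp only [sum_split u h τ hτ]
  unfold W3
  rw [setlint (hS 0)]
  refine lintegral_congr fun x => ?_
  set s1 := ∑ j, p0 p q r τ j with hs1
  set s2 := ∑ j, p1 p q r τ j with hs2
  set s3 := ∑ j, p2 p q r τ j with hs3
  set g2 : ℂ → ℝ≥0∞ := fun y => (S 2).indicator (fun _ => 1) y *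
    ENNReal.ofReal (kME u h (M 2) (E 2) s3 y x) with hg2
  have hg2m : Measurable g2 := (ind_meas (hS 2) measurable_id).mul
    (ENNReal.measurable_ofReal.comp (kME_meas_comp u h _ _ measurable_const measurable_id
      measurable_const))
  set g1 : ℂ → ℝ≥0∞ := fun z => (S 1).indicator (fun _ => 1) z *
    ∫⁻ y, ENNReal.ofReal (kME u h (M 1) (E 1) s2 z y) * g2 y with hg1
  have hg1m : Measurable g1 := by
    refine (ind_meas (hS 1) measurable_id).mul ?_
    have : Measurable fun a : ℂ × ℂ => ENNReal.ofReal (kME u h (M 1) (E 1) s2 a.1 a.2) * g2 a.2 :=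
      (ENNReal.measurable_ofReal.comp (kME_meas_comp u h _ _ measurable_const measurable_fst
        measurable_snd)).mul (hg2m.comp measurable_snd)
    exact this.lintegral_prod_right'
  have hC0 : ∀ z0 : Fin p → ℂ, Measurable fun z => CC u h (p0 p q r τ) (M 0) (E 0) x z0 z :=
    fun z0 => CC_meas_comp u h _ _ _ measurable_const measurable_const measurable_id
  have hC1 : ∀ (z : ℂ) (z1 : Fin q → ℂ),
      Measurable fun y => CC u h (p1 p q r τ) (M 1) (E 1) z z1 y :=
    fun z z1 => CC_meas_comp u h _ _ _ measurable_const measurable_const measurable_id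
  have hC2 : ∀ y : ℂ, Measurable fun z2 : Fin r → ℂ =>
      CC u h (p2 p q r τ) (M 2) (E 2) y z2 x :=
    fun y => CC_meas_comp u h _ _ _ measurable_const measurable_id measurable_const
  -- the third arc
  have st2 : ∀ (z0 : Fin p → ℂ) (z : ℂ) (z1 : Fin q → ℂ) (y : ℂ),
      ∫⁻ z2 : Fin r → ℂ, (S 0).indicator (fun _ => 1) x *
        (CC u h (p0 p q r τ) (M 0) (E 0) x z0 z * ((S 1).indicator (fun _ => 1) z *
          (CC u h (p1 p q r τ) (M 1) (E 1) z z1 y * ((S 2).indicator (fun _ => 1) y *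
            CC u h (p2 p q r τ) (M 2) (E 2) y z2 x)))) =
      (S 0).indicator (fun _ => 1) x * (CC u h (p0 p q r τ) (M 0) (E 0) x z0 z *
        ((S 1).indicator (fun _ => 1) z * (CC u h (p1 p q r τ) (M 1) (E 1) z z1 y * g2 y))) := by
    intro z0 z z1 y
    have m1 := (hC2 y).const_mul ((S 2).indicator (fun _ => (1 : ℝ≥0∞)) y)
    have m2 := m1.const_mul (CC u h (p1 p q r τ) (M 1) (E 1) z z1 y)
    have m3 := m2.const_mul ((S 1).indicator (fun _ => (1 : ℝ≥0∞)) z)
    have m4 := m3.const_mul (CC u h (p0 p q r τ) (M 0) (E 0) x z0 z)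
    rw [lintegral_const_mul _ m4, lintegral_const_mul _ m3, lintegral_const_mul _ m2,
      lintegral_const_mul _ m1, lintegral_const_mul _ (hC2 y), CC_int u h _ hτ2]
  simp only [st2]
  -- the second arc
  have st1 : ∀ (z0 : Fin p → ℂ) (z : ℂ),
      ∫⁻ z1 : Fin q → ℂ, ∫⁻ y, (S 0).indicator (fun _ => 1) x *
        (CC u h (p0 p q r τ) (M 0) (E 0) x z0 z * ((S 1).indicator (fun _ => 1) z *
          (CC u h (p1 p q r τ) (M 1) (E 1) z z1 y * g2 y))) =
      (S 0).indicator (fun _ => 1) x * (CC u h (p0 p q r τ) (M 0) (E 0) x z0 z * g1 z) := by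
    intro z0 z
    have m1 : ∀ z1 : Fin q → ℂ, Measurable fun y =>
        CC u h (p1 p q r τ) (M 1) (E 1) z z1 y * g2 y := fun z1 => (hC1 z z1).mul hg2m
    have m2 := fun z1 => (m1 z1).const_mul ((S 1).indicator (fun _ => (1 : ℝ≥0∞)) z)
    have m3 := fun z1 => (m2 z1).const_mul (CC u h (p0 p q r τ) (M 0) (E 0) x z0 z)
    have e1 : ∀ z1 : Fin q → ℂ, ∫⁻ y, (S 0).indicator (fun _ => 1) x *
        (CC u h (p0 p q r τ) (M 0) (E 0) x z0 z * ((S 1).indicator (fun _ => 1) z *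
          (CC u h (p1 p q r τ) (M 1) (E 1) z z1 y * g2 y))) =
        (S 0).indicator (fun _ => 1) x * (CC u h (p0 p q r τ) (M 0) (E 0) x z0 z *
          ((S 1).indicator (fun _ => 1) z *
            ∫⁻ y, CC u h (p1 p q r τ) (M 1) (E 1) z z1 y * g2 y)) := by
      intro z1
      rw [lintegral_const_mul _ (m3 z1), lintegral_const_mul _ (m2 z1),
        lintegral_const_mul _ (m1 z1)]
    simp only [e1]
    have k1 : Measurable fun z1 : Fin q → ℂ => ∫⁻ y,
        CC u h (p1 p q r τ) (M 1) (E 1) z z1 y * g2 y := by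
      have : Measurable fun a : (Fin q → ℂ) × ℂ =>
          CC u h (p1 p q r τ) (M 1) (E 1) z a.1 a.2 * g2 a.2 :=
        (CC_meas_comp u h _ _ _ measurable_const measurable_fst measurable_snd).mul
          (hg2m.comp measurable_snd)
      exact this.lintegral_prod_right'
    have k2 := k1.const_mul ((S 1).indicator (fun _ => (1 : ℝ≥0∞)) z)
    have k3 := k2.const_mul (CC u h (p0 p q r τ) (M 0) (E 0) x z0 z)
    rw [lintegral_const_mul _ k3, lintegral_const_mul _ k2, lintegral_const_mul _ k1,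
      CC_arc u h _ hτ1 _ _ _ hg2m]
  simp only [st1]
  -- the first arc
  have m1 : ∀ z0 : Fin p → ℂ, Measurable fun z =>
      CC u h (p0 p q r τ) (M 0) (E 0) x z0 z * g1 z := fun z0 => (hC0 z0).mul hg1m
  have e1 : ∀ z0 : Fin p → ℂ, ∫⁻ z, (S 0).indicator (fun _ => 1) x *
      (CC u h (p0 p q r τ) (M 0) (E 0) x z0 z * g1 z) =
      (S 0).indicator (fun _ => 1) x * ∫⁻ z, CC u h (p0 p q r τ) (M 0) (E 0) x z0 z * g1 z :=
    fun z0 => lintegral_const_mul _ (m1 z0)
  simp only [e1]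
  have k1 : Measurable fun z0 : Fin p → ℂ => ∫⁻ z,
      CC u h (p0 p q r τ) (M 0) (E 0) x z0 z * g1 z := by
    have : Measurable fun a : (Fin p → ℂ) × ℂ =>
        CC u h (p0 p q r τ) (M 0) (E 0) x a.1 a.2 * g1 a.2 :=
      (CC_meas_comp u h _ _ _ measurable_const measurable_fst measurable_snd).mul
        (hg1m.comp measurable_snd)
    exact this.lintegral_prod_right'
  rw [lintegral_const_mul _ k1, CC_arc u h _ hτ0 _ _ _ hg1m]
  congr 1
  rw [setlint (hS 1)]
  refine lintegral_congr fun z => ?_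
  rw [setlint (hS 2)]
  have e2 : ∀ y, (S 2).indicator (fun _ => 1) y * (ENNReal.ofReal (kME u h (M 0) (E 0) s1 x z) *
      ENNReal.ofReal (kME u h (M 1) (E 1) s2 z y) * ENNReal.ofReal (kME u h (M 2) (E 2) s3 y x)) =
      ENNReal.ofReal (kME u h (M 0) (E 0) s1 x z) *
        (ENNReal.ofReal (kME u h (M 1) (E 1) s2 z y) * g2 y) := by
    intro y
    rw [hg2]
    ring
  simp only [e2]
  have m2 : Measurable fun y => ENNReal.ofReal (kME u h (M 1) (E 1) s2 z y) * g2 y :=
    (ENNReal.measurable_ofReal.comp (kME_meas_comp u h _ _ measurable_const measurable_const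
      measurable_id)).mul hg2m
  rw [lintegral_const_mul _ m2, hg1]
  ring

end Pool.Agent.XQ.K4.H18
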