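import Pool.Agent.Helper35_XQ.StmtAH
import Pool.Agent.Helper20_AEU3.RefKer

/-!
Squad XQ, Part AH, module RCH: reflection of chains which never visit line `2` (helper18).
-/

set_option autoImplicit false

namespace Pool.Agent.XQ.AH.H18

open MeasureTheory Complex Filter Topology Pool.Agent.H62T Pool.Agent.H16F Pool.Agent.H60K
  Pool.Agent.H60K.H44 Pool.Agent.H60K.H20
open scoped ENNReal NNReal

section sums

variable (u : Fin 3 → ℂ) (h : Fin 3 → ℝ)

/-- kernel of the paths which visit neither `0` nor `2` -/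
theorem sum_no2 {t : ℝ} (ht : 0 < t) (x y : ℂ) :
    ∑ a : Finset (Fin 3), (if 2 ∉ a ∧ 0 ∉ a then ENNReal.ofReal (kA u h a t x y) else 0)
      = ENNReal.ofReal (pB u h {0, 2} t x y) := by
  rw [pB_eq u h {0, 2} t x y, ENNReal.ofReal_sum_of_nonneg fun A _ => kA_nonneg u h ht x y A,
    ← Finset.sum_filter]
  refine Finset.sum_congr ?_ fun _ _ => rfl
  ext a
  rw [Finset.mem_filter, Finset.mem_powerset, Finset.subset_compl_comm,
    Finset.insert_subset_iff, Finset.singleton_subset_iff, Finset.mem_compl, Finset.mem_compl]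
  constructor
  · rintro ⟨-, h1, h2⟩
    exact ⟨h2, h1⟩
  · rintro ⟨h1, h2⟩
    exact ⟨Finset.mem_univ _, h2, h1⟩

/-- kernel of the paths which do not visit `2` -/
theorem sum_all2 {t : ℝ} (ht : 0 < t) (x y : ℂ) :
    ∑ a : Finset (Fin 3), (if 2 ∉ a then ENNReal.ofReal (kA u h a t x y) else 0)
      = ENNReal.ofReal (pB u h {2} t x y) := by
  rw [pB_eq u h {2} t x y, ENNReal.ofReal_sum_of_nonneg fun A _ => kA_nonneg u h ht x y A,
    ← Finset.sum_filter]
  refine Finset.sum_congr ?_ fun _ _ => rfl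
  ext a
  rw [Finset.mem_filter, Finset.mem_powerset, Finset.subset_compl_comm, Finset.singleton_subset_iff,
    Finset.mem_compl]
  simp

/-- kernel of the paths which visit `0` and not `2` -/
theorem sum_yes2 {t : ℝ} (ht : 0 < t) (x y : ℂ) :
    ∑ a : Finset (Fin 3), (if 2 ∉ a ∧ 0 ∈ a then ENNReal.ofReal (kA u h a t x y) else 0)
      = ENNReal.ofReal (pB u h {2} t x y - pB u h {0, 2} t x y) := by
  have h1 := sum_all2 u h ht x y
  have h2 := sum_no2 u h ht x y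
  have h3 : ∑ a : Finset (Fin 3), (if 2 ∉ a then ENNReal.ofReal (kA u h a t x y) else 0)
      = ∑ a : Finset (Fin 3), (if 2 ∉ a ∧ 0 ∈ a then ENNReal.ofReal (kA u h a t x y) else 0)
        + ∑ a : Finset (Fin 3), (if 2 ∉ a ∧ 0 ∉ a then ENNReal.ofReal (kA u h a t x y) else 0) := by
    rw [← Finset.sum_add_distrib]
    refine Finset.sum_congr rfl fun a _ => ?_
    by_cases hb : 2 ∈ a
    · simp [hb]
    · by_cases ha : 0 ∈ a
      · simp [ha, hb]
      · simp [ha, hb]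
  rw [h1, h2] at h3
  have hnn : 0 ≤ pB u h {0, 2} t x y := by
    rw [pB_eq u h {0, 2} t x y]
    exact Finset.sum_nonneg fun A _ => kA_nonneg u h ht x y A
  rw [ENNReal.ofReal_sub _ hnn, h3]
  exact (ENNReal.add_sub_cancel_right ENNReal.ofReal_ne_top).symm

theorem Qe_cons {m : ℕ} (a : Finset (Fin 3)) (A : Fin (m + 1) → Finset (Fin 3)) :
    Qe (m + 1) (Fin.cons a A) ↔ 2 ∉ a ∧ ((0 ∉ a ∧ Qe m A) ∨ (0 ∈ a ∧ Vis {1} {2} A)) := Iff.rfl

theorem Cs_cons2 {m : ℕ} (τ : Fin (m + 2) → ℝ) (x y : ℂ) :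
    Cs u h (Qe (m + 1)) τ x y
      = ∑ a : Finset (Fin 3), ((if 2 ∉ a ∧ 0 ∉ a then
          ∫⁻ z, ENNReal.ofReal (kA u h a (τ 0) x z)
            * Cs u h (Qe m) (fun j => τ j.succ) z y else 0)
        + (if 2 ∉ a ∧ 0 ∈ a then ∫⁻ z, ENNReal.ofReal (kA u h a (τ 0) x z)
            * Cs u h (Vis {1} {2}) (fun j => τ j.succ) z y else 0)) := by
  classical
  have e0 : Cs u h (Qe (m + 1)) τ x y = ∑ A : Fin (m + 1 + 1) → Finset (Fin 3),
      (if Qe (m + 1) A then ∫⁻ z : Fin (m + 1) → ℂ, cw u h τ A x z y else 0) := rfl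
  rw [e0, sum_cons]
  refine Finset.sum_congr rfl fun a _ => ?_
  rw [← cons_sum u h τ x y a (Qe m), ← cons_sum u h τ x y a (Vis {1} {2})]
  simp only [Qe_cons]
  by_cases hb : 2 ∈ a
  · simp [hb]
  · by_cases ha : 0 ∈ a
    · simp only [ha, hb, not_true_eq_false, not_false_eq_true, false_and, true_and, and_false,
        false_or, if_true, if_false, zero_add]
    · simp only [ha, hb, not_false_eq_true, false_and, true_and, and_false, or_false, and_true,
        if_true, if_false, add_zero]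

/-- recursion -/
theorem Cs_succ2 {m : ℕ} (τ : Fin (m + 2) → ℝ) (hτ : ∀ j, 0 < τ j)
    (x y : ℂ) : Cs u h (Qe (m + 1)) τ x y
      = (∫⁻ z, ENNReal.ofReal (pB u h {0, 2} (τ 0) x z)
          * Cs u h (Qe m) (fun j => τ j.succ) z y)
        + ∫⁻ z, ENNReal.ofReal (pB u h {2} (τ 0) x z - pB u h {0, 2} (τ 0) x z)
          * ENNReal.ofReal (kME u h {1} {2} (∑ j : Fin (m + 1), τ j.succ) z y) := by
  have h1 := sum_lint u h (t := τ 0) x (fun a => 2 ∉ a ∧ 0 ∉ a)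
    (Cs_meas_l u h (Qe m) (fun j => τ j.succ) y)
  have h2 := sum_lint u h (t := τ 0) x (fun a => 2 ∉ a ∧ 0 ∈ a)
    (Cs_meas_l u h (Vis {1} {2}) (fun j => τ j.succ) y)
  rw [Cs_cons2, Finset.sum_add_distrib]
  refine Eq.trans (congrArg₂ (· + ·) h1 h2) ?_
  refine congrArg₂ (· + ·) ?_ ?_
  · exact lintegral_congr fun z => by rw [sum_no2 u h (hτ 0) x z]
  · refine lintegral_congr fun z => ?_
    rw [sum_yes2 u h (hτ 0) x z, Cs_vis u h {1} {2} (fun j => τ j.succ) (fun j => hτ _)]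

end sums

/-! ### Reflection -/

section refl

variable {u : Fin 3 → ℂ} {h : Fin 3 → ℝ}

theorem ip_symm (a b : ℂ) : ip a b = ip b a := by
  unfold ip
  ring

theorem ip2_rf (hp : ip (u 0) (u 2) = 0) (z : ℂ) : ip (u 2) (rf u h 0 z) = ip (u 2) z := by
  unfold rf
  have e : ip (u 2) (z - ((2 * (ip (u 0) z - h 0) : ℝ) : ℂ) * u 0)
      = ip (u 2) z - 2 * (ip (u 0) z - h 0) * ip (u 0) (u 2) := by
    unfold ip
    rw [Complex.sub_re, Complex.sub_im, Complex.re_ofReal_mul, Complex.im_ofReal_mul]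
    ring
  rw [e, hp]
  ring

theorem ip0_rf2 (hp : ip (u 0) (u 2) = 0) (z : ℂ) : ip (u 0) (rf u h 2 z) = ip (u 0) z := by
  unfold rf
  have e : ip (u 0) (z - ((2 * (ip (u 2) z - h 2) : ℝ) : ℂ) * u 2)
      = ip (u 0) z - 2 * (ip (u 2) z - h 2) * ip (u 0) (u 2) := by
    unfold ip
    rw [Complex.sub_re, Complex.sub_im, Complex.re_ofReal_mul, Complex.im_ofReal_mul]
    ring
  rw [e, hp]
  ring

/-- the two reflections commute -/
theorem rf_comm (hp : ip (u 0) (u 2) = 0) (z : ℂ) :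
    rf u h 2 (rf u h 0 z) = rf u h 0 (rf u h 2 z) := by
  have e1 : rf u h 2 (rf u h 0 z)
      = rf u h 0 z - ((2 * (ip (u 2) (rf u h 0 z) - h 2) : ℝ) : ℂ) * u 2 := rfl
  have e2 : rf u h 0 (rf u h 2 z)
      = rf u h 2 z - ((2 * (ip (u 0) (rf u h 2 z) - h 0) : ℝ) : ℂ) * u 0 := rfl
  rw [e1, e2, ip2_rf hp, ip0_rf2 hp]
  unfold rf
  ring

theorem pBs_out (s : Fin 3) {t : ℝ} (ht : 0 < t) {x y : ℂ}
    (hxy : ¬ (ip (u s) x < h s ∧ ip (u s) y < h s)) : pB u h {s} t x y = 0 := by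
  unfold pB
  refine ((H8.pdk _ (dm_open u h {s})).2 t ht).2.1 x y ?_
  have e : Dm u h {s} = {z | ip (u s) z < h s} := by
    ext z
    simp [Dm]
  rw [e]
  by_contra hc
  rw [not_or, not_not, not_not] at hc
  exact hxy hc

theorem pBs_in (s : Fin 3) (hu : ‖u s‖ = 1) {t : ℝ} (ht : 0 < t) {x y : ℂ}
    (hx : ip (u s) x < h s) (hy : ip (u s) y < h s) :
    pB u h {s} t x y = G t (x - y) - G t (x - rf u h s y) := by
  unfold pB
  have e : Dm u h {s} = {z | ip (u s) z < h s} := by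
    ext z
    simp [Dm]
  rw [e]
  exact H15.hpk (u s) (h s) t x y hu ht hx hy

/-- the half-plane kernel is invariant under the reflection in the orthogonal line -/
theorem pB2_rf_rf (hu : ∀ s, ‖u s‖ = 1) (hp : ip (u 0) (u 2) = 0) {t : ℝ} (ht : 0 < t)
    (x y : ℂ) : pB u h {2} t (rf u h 0 x) (rf u h 0 y) = pB u h {2} t x y := by
  by_cases hxy : ip (u 2) x < h 2 ∧ ip (u 2) y < h 2
  · have hx' : ip (u 2) (rf u h 0 x) < h 2 := by rw [ip2_rf hp]; exact hxy.1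
    have hy' : ip (u 2) (rf u h 0 y) < h 2 := by rw [ip2_rf hp]; exact hxy.2
    rw [pBs_in 2 (hu 2) ht hx' hy', pBs_in 2 (hu 2) ht hxy.1 hxy.2, rf_comm hp,
      G_rf_rf (hu 0), G_rf_rf (hu 0)]
  · rw [pBs_out 2 ht hxy, pBs_out 2 ht]
    rw [ip2_rf hp, ip2_rf hp]
    exact hxy

theorem pB2_rf (hu : ∀ s, ‖u s‖ = 1) (hp : ip (u 0) (u 2) = 0) {t : ℝ} (ht : 0 < t)
    (x y : ℂ) : pB u h {2} t (rf u h 0 x) y = pB u h {2} t x (rf u h 0 y) := by
  rw [← pB2_rf_rf (u := u) (h := h) hu hp ht (rf u h 0 x) y, H20.rf_rf (hu 0)]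

theorem pB2_uc (t : ℝ) (x y : ℂ) : pB (uc u) (hc h) {2} t x y = pB u h {2} t x y := by
  unfold pB
  congr 1
  ext z
  unfold Dm
  refine forall₂_congr fun s hs => ?_
  have hs0 : s ≠ 0 := by
    rw [Finset.mem_singleton] at hs
    rw [hs]
    decide
  rw [uc_ne hs0, hc_ne hs0]

theorem pB02_out {t : ℝ} (ht : 0 < t) {x y : ℂ}
    (hxy : ¬ (ip (u 0) x < h 0 ∧ ip (u 0) y < h 0)) : pB u h {0, 2} t x y = 0 := by
  unfold pB
  refine ((H8.pdk _ (dm_open u h {0, 2})).2 t ht).2.1 x y ?_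
  by_contra hc
  rw [not_or, not_not, not_not] at hc
  exact hxy ⟨hc.1 0 (by simp), hc.2 0 (by simp)⟩

theorem ip_uc (hp : ip (u 0) (u 2) = 0) : ip (uc u 0) (uc u 2) = 0 := by
  rw [uc0, uc_ne (by decide), ip_neg, hp, neg_zero]

theorem pB02_rf (hQ : QpkStatement) (hu : ∀ s, ‖u s‖ = 1) (hp : ip (u 0) (u 2) = 0) {t : ℝ}
    (ht : 0 < t) (x y : ℂ) :
    pB (uc u) (hc h) {0, 2} t (rf u h 0 x) (rf u h 0 y) = pB u h {0, 2} t x y := by
  by_cases hxy : ip (u 0) x < h 0 ∧ ip (u 0) y < h 0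
  · rw [hQ (uc u) (hc h) (H20.norm_uc hu) (ip_uc hp) t _ _ ht ((opp_iff (hu 0) x).mpr hxy.1)
      ((opp_iff (hu 0) y).mpr hxy.2), hQ u h hu hp t x y ht hxy.1 hxy.2, H20.rf_uc, H20.rf_rf (hu 0),
      pB2_uc, pB2_uc, pB2_rf_rf hu hp ht, pB2_rf hu hp ht]
  · rw [pB02_out ht hxy, pB02_out ht]
    rw [opp_iff (hu 0), opp_iff (hu 0)]
    exact hxy

theorem vis02_rf (hQ : QpkStatement) (hu : ∀ s, ‖u s‖ = 1) (hp : ip (u 0) (u 2) = 0) {t : ℝ}
    (ht : 0 < t) {x : ℂ} (hx : ip (u 0) x < h 0) (y : ℂ) :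
    pB (uc u) (hc h) {2} t (rf u h 0 x) y - pB (uc u) (hc h) {0, 2} t (rf u h 0 x) y
      = pB u h {2} t x y - pB u h {0, 2} t x y := by
  have hx' := (opp_iff (h := h) (hu 0) x).mpr hx
  rw [pB2_uc]
  by_cases hy : ip (u 0) y < h 0
  · have hy' : ¬ ip (uc u 0) y < hc h 0 := by
      rw [uc0, hc0, ip_neg]
      linarith
    rw [hQ u h hu hp t x y ht hx hy, pB02_out ht (fun hc => hy' hc.2), pB2_rf hu hp ht]
    ring
  · rw [pB02_out ht (fun hc => hy hc.2)]
    by_cases hy' : ip (uc u 0) y < hc h 0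
    · rw [hQ (uc u) (hc h) (H20.norm_uc hu) (ip_uc hp) t _ _ ht hx' hy', rf_uc, pB2_uc, pB2_uc,
        pB2_rf_rf hu hp ht]
      ring
    · rw [pB02_out ht (fun hc => hy' hc.2)]
      have e : rf u h 0 y = y := by
        rw [uc0, hc0, ip_neg] at hy'
        exact H15.rl_fix (by linarith : ip (u 0) y = h 0)
      rw [pB2_rf hu hp ht, e]

end refl

/-- module RCH: reflection of chains -/
theorem rch (hQ : QpkStatement) : RchStatement := by
  intro u h hu hp m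
  induction m with
  | zero =>
    intro τ _ x y _
    unfold H20.Cs Qe
    simp
  | succ m ih =>
    intro τ hτ x y hx
    rw [Cs_succ2 u h τ hτ x y, Cs_succ2 (uc u) (hc h) τ hτ (rf u h 0 x) y]
    congr 1
    · have hmp : MeasurePreserving (rf u h 0) volume volume := H15.rl_mp (hu 0)
      have hme : MeasurableEmbedding (rf u h 0) := H15.rl_emb (hu 0)
      have e := hmp.lintegral_comp_emb hme (fun z => ENNReal.ofReal
        (pB (uc u) (hc h) {0, 2} (τ 0) (rf u h 0 x) z)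
        * Cs (uc u) (hc h) (Qe m) (fun j => τ j.succ) z y)
      rw [← e]
      refine lintegral_congr fun z => ?_
      rw [pB02_rf hQ hu hp (hτ 0)]
      by_cases hz : ip (u 0) z < h 0
      · rw [ih (fun j => τ j.succ) (fun j => hτ _) z y hz]
      · rw [pB02_out (hτ 0) (fun hc => hz hc.2), ENNReal.ofReal_zero, zero_mul, zero_mul]
    · refine lintegral_congr fun z => ?_
      rw [vis02_rf hQ hu hp (hτ 0) hx, kME_uc (by decide) (by decide)]

end Pool.Agent.XQ.AH.H18
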