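import Pool.Agent.Helper18_XQ.RchAH
import Pool.Agent.Helper20_AEU3.RefMain

/-!
Squad XQ, Part AH, module REF: reflection of the path before its first visit of line `0`, for the
loops which never visit line `2` (helper18).
-/

set_option autoImplicit false

namespace Pool.Agent.XQ.AH.H18

open MeasureTheory Complex Filter Topology Pool.Agent.H62T Pool.Agent.H16F Pool.Agent.H60K
  Pool.Agent.H60K.H44 Pool.Agent.H60K.H20
open scoped ENNReal NNReal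

/-! ### Combinatorics -/

theorem Qe_iff (m : ℕ) : ∀ A : Fin (m + 1) → Finset (Fin 3),
    Qe m A ↔ Qr {1} {2} m A ∧ ∀ j, 2 ∉ A j := by
  induction m with
  | zero =>
    intro A
    constructor
    · intro h
      exact h.elim
    · rintro ⟨h, -⟩
      exact h.elim
  | succ m ih =>
    intro A
    have e1 : Qe (m + 1) A ↔ 2 ∉ A 0 ∧ ((0 ∉ A 0 ∧ Qe m (fun j => A j.succ)) ∨
      (0 ∈ A 0 ∧ Vis {1} {2} (fun j : Fin (m + 1) => A j.succ))) := Iff.rfl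
    have e2 : Qr {1} {2} (m + 1) A ↔ (0 ∉ A 0 ∧ Qr {1} {2} m (fun j => A j.succ)) ∨
      (0 ∈ A 0 ∧ Vis {1} {2} (fun j : Fin (m + 1) => A j.succ)) := Iff.rfl
    rw [e1, e2, ih]
    have hall : (∀ j, 2 ∉ A j) ↔ 2 ∉ A 0 ∧ ∀ j : Fin (m + 1), 2 ∉ A j.succ := by
      constructor
      · intro h
        exact ⟨h 0, fun j => h _⟩
      · rintro ⟨h0, h1⟩ j
        exact Fin.cases h0 h1 j
    have hv : Vis {1} {2} (fun j : Fin (m + 1) => A j.succ) → ∀ j : Fin (m + 1), 2 ∉ A j.succ := by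
      intro h j
      exact Finset.disjoint_singleton_right.mp (h.2 j)
    rw [hall]
    constructor
    · rintro ⟨h2, ⟨h0, h3, h4⟩ | ⟨h0, h3⟩⟩
      · exact ⟨Or.inl ⟨h0, h3⟩, h2, h4⟩
      · exact ⟨Or.inr ⟨h0, h3⟩, h2, hv h3⟩
    · rintro ⟨⟨h0, h3⟩ | ⟨h0, h3⟩, h2, h4⟩
      · exact ⟨h2, Or.inl ⟨h0, h3, h4⟩⟩
      · exact ⟨h2, Or.inr ⟨h0, h3⟩⟩

theorem one_ne : ({1} : Finset (Fin 3)).Nonempty := ⟨1, Finset.mem_singleton_self 1⟩

theorem T_iff {m : ℕ} (A : Fin (m + 2) → Finset (Fin 3)) :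
    (Fj {1} A 0 ∧ ∀ j, Disjoint (A j) {2}) ↔ 2 ∉ A 0 ∧ Qe m (fun j => A j.succ) := by
  constructor
  · intro h
    have h1 := fj_P1 h
    rw [P1_iff, ← Qr_iff one_ne] at h1
    refine ⟨Finset.disjoint_singleton_right.mp (h.2 0), (Qe_iff m _).mpr ⟨h1, fun j => ?_⟩⟩
    exact Finset.disjoint_singleton_right.mp (h.2 j.succ)
  · rintro ⟨h2, h3⟩
    obtain ⟨h4, h5⟩ := (Qe_iff m _).mp h3
    rw [Qr_iff one_ne, ← P1_iff] at h4
    have hall : ∀ j, Disjoint (A j) {2} := by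
      intro j
      rw [Finset.disjoint_singleton_right]
      exact Fin.cases h2 h5 j
    rcases P1_fj h4 with h6 | h6
    · exact h6
    · obtain ⟨k, -, -, -, l, -, -, hl⟩ := h6
      exact absurd (hall _) hl

/-- the bad event, on the labels of the last blocks -/
def Rc (m : ℕ) (A : Fin (m + 1) → Finset (Fin 3)) : Prop :=
  Bad3 {1} {2} (Fin.cons ∅ A : Fin (m + 2) → Finset (Fin 3))

theorem Rc_iff {m : ℕ} (A : Fin (m + 2) → Finset (Fin 3)) (hA : A 0 = ∅) :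
    Rc m (fun j => A j.succ) ↔ Bad3 {1} {2} A := by
  have : (Fin.cons ∅ (fun j : Fin (m + 1) => A j.succ) : Fin (m + 2) → Finset (Fin 3)) = A := by
    rw [← hA]
    exact Fin.cons_self_tail A
  unfold Rc
  rw [this]

section Core

variable {u : Fin 3 → ℂ} {h : Fin 3 → ℝ} {m : ℕ}

theorem Qe_vis {A : Fin (m + 1) → Finset (Fin 3)} (h : Qe m A) : Vis {1} {2} A := by
  obtain ⟨h1, h2⟩ := (Qe_iff m A).mp h
  rw [Qr_iff one_ne] at h1
  obtain ⟨k, -, -, h3, -⟩ := h1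
  refine ⟨fun s hs => ?_, fun j => Finset.disjoint_singleton_right.mpr (h2 j)⟩
  obtain ⟨l, -, hl⟩ := h3 s hs
  exact ⟨l, hl⟩

theorem cs_le2 (τ : Fin (m + 1) → ℝ) (x y : ℂ) :
    Cs u h (Qe m) τ x y ≤ Cs u h (Vis {1} {2}) τ x y := by
  classical
  unfold Cs
  refine Finset.sum_le_sum fun A _ => ?_
  by_cases c : Qe m A
  · rw [if_pos c, if_pos (Qe_vis c)]
  · rw [if_neg c]
    exact zero_le

theorem le_cs2 (hu : ∀ s, ‖u s‖ = 1) (τ : Fin (m + 1) → ℝ)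
    (hτ : ∀ j, 0 < τ j) (x y : ℂ) (hy : ¬ ip (u 0) y < h 0) :
    Cs u h (Vis {1} {2}) τ x y ≤ Cs u h (Qe m) τ x y + Cs u h (Rc m) τ x y := by
  classical
  unfold Cs
  rw [← Finset.sum_add_distrib]
  refine Finset.sum_le_sum fun A _ => ?_
  by_cases c : Vis {1} {2} A
  · rw [if_pos c]
    by_cases c0 : ∃ j, 0 ∈ A j
    · have h1 : Vis {1} {2} (fun j : Fin (m + 1) =>
          (Fin.cons ∅ A : Fin (m + 2) → Finset (Fin 3)) j.succ) := by
        rw [tail_cons]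
        exact c
      have h2 : ∃ j : Fin (m + 1), 0 ∈ (Fin.cons ∅ A : Fin (m + 2) → Finset (Fin 3)) j.succ := by
        obtain ⟨j, hj⟩ := c0
        exact ⟨j, by rw [Fin.cons_succ]; exact hj⟩
      rcases vis_P1 h1 h2 with h3 | h3
      · rw [P1_iff, tail_cons, ← Qr_iff one_ne] at h3
        have h4 : Qe m A := (Qe_iff m A).mpr
          ⟨h3, fun j => Finset.disjoint_singleton_right.mp (c.2 j)⟩
        rw [if_pos h4]
        exact le_self_add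
      · have h4 : Rc m A := h3
        rw [if_pos h4]
        exact le_add_self
    · have h0 : ∀ j, 0 ∉ A j := fun j hj => c0 ⟨j, hj⟩
      have : ∫⁻ z : Fin m → ℂ, cw u h τ A x z y = 0 := by
        simp only [fun z => cw_zero hu τ hτ A h0 x y z hy, lintegral_zero]
      rw [this]
      exact zero_le
  · rw [if_neg c]
    exact zero_le

end Core

/-! ### The half-plane kernel -/

section Half

variable (u : Fin 3 → ℂ) (h : Fin 3 → ℝ)

theorem pB2_nonneg {t : ℝ} (ht : 0 < t) (x y : ℂ) : 0 ≤ pB u h {2} t x y := by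
  rw [pB_eq u h {2} t x y]
  exact Finset.sum_nonneg fun A _ => kA_nonneg u h ht x y A

theorem pB2_le {t : ℝ} (ht : 0 < t) (x y : ℂ) : pB u h {2} t x y ≤ G t (x - y) := by
  have h1 := pB_eq u h ∅ t x y
  have h2 : pB u h ∅ t x y = G t (x - y) := by
    unfold pB
    have : Dm u h ∅ = Set.univ := by
      ext x
      simp [Dm]
    rw [this]
    exact uni t x y ht
  rw [← h2, h1, pB_eq u h {2} t x y]
  refine Finset.sum_le_sum_of_subset_of_nonneg ?_ fun A _ _ => kA_nonneg u h ht x y A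
  intro A _
  simp

theorem pB2_meas (t : ℝ) : Measurable fun p : ℂ × ℂ => pB u h {2} t p.1 p.2 := by
  simp only [pB_eq u h {2} t]
  refine Finset.measurable_fun_sum _ fun A _ => ?_
  exact kA_meas_comp u h A measurable_const measurable_fst measurable_snd

end Half

/-! ### The two inequalities for masses -/

section Mass

variable {u : Fin 3 → ℂ} {h : Fin 3 → ℝ} {m : ℕ}

open Classical in
/-- the main term -/
noncomputable def LK2 (u : Fin 3 → ℂ) (h : Fin 3 → ℝ)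
    (τ : Fin (m + 2) → ℝ) (S : ℂ → ℂ → Prop) : ℝ≥0∞ :=
  ∫⁻ p : ℂ × ℂ, if S p.1 p.2 then ENNReal.ofReal (pB u h {2} (τ 0) p.1 p.2)
    * ENNReal.ofReal (kME u h {1} {2} (∑ j : Fin (m + 1), τ j.succ) (rf u h 0 p.2) p.1) else 0

open Classical in
theorem Ms_two2 (τ : Fin (m + 2) → ℝ) (hτ : ∀ j, 0 < τ j) (S : ℂ → ℂ → Prop)
    (hS : MeasurableSet {p : ℂ × ℂ | S p.1 p.2}) :
    Ms u h τ (fun x A => (Fj {1} A 0 ∧ ∀ j, Disjoint (A j) {2}) ∧ S (x 0) (x 1))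
    = ∫⁻ p : ℂ × ℂ, if S p.1 p.2 then ENNReal.ofReal (pB u h {2} (τ 0) p.1 p.2)
      * Cs u h (Qe m) (fun j => τ j.succ) p.2 p.1 else 0 := by
  have e0 : Ms u h τ (fun x A => (Fj {1} A 0 ∧ ∀ j, Disjoint (A j) {2}) ∧ S (x 0) (x 1))
      = Mg (fun A x => if 2 ∉ A 0 then ENNReal.ofReal (wt u h τ x A) else 0)
        (fun x A => Qe m (fun j => A j.succ) ∧ S (x 0) (x 1)) := by
    rw [Ms_eq]
    unfold Mg
    refine Finset.sum_congr rfl fun A _ => lintegral_congr fun x => ?_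
    beta_reduce
    by_cases c2 : 2 ∉ A 0
    · by_cases c : Qe m (fun j => A j.succ) ∧ S (x 0) (x 1)
      · rw [if_pos ⟨(T_iff A).mpr ⟨c2, c.1⟩, c.2⟩, if_pos c, if_pos c2]
      · rw [if_neg (fun hc => c ⟨((T_iff A).mp hc.1).2, hc.2⟩), if_neg c]
    · rw [if_neg (fun hc => c2 ((T_iff A).mp hc.1).1), if_neg c2, ite_self]
  rw [e0, two_gen (Qe m) S hS
    (fun A x => if 2 ∉ A 0 then ENNReal.ofReal (wt u h τ x A) else 0)
    (fun A => ?_)
    (fun a x0 x1 => if 2 ∉ a then ENNReal.ofReal (kA u h a (τ 0) x0 x1) else 0)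
    (fun a => ?_)
    (fun A x0 x1 z => cw u h (fun j => τ j.succ) A x1 z x0)
    (fun A => cw_meas_comp u h _ A (measurable_snd.comp measurable_fst) measurable_snd
      (measurable_fst.comp measurable_fst))
    (fun a A x0 x1 z => ?_)
    (fun a _ _ => ?_)]
  · refine lintegral_congr fun p => ?_
    by_cases hs : S p.1 p.2
    · rw [if_pos hs, if_pos hs, sum_all2 u h (hτ 0)]
      rfl
    · rw [if_neg hs, if_neg hs]
  · by_cases c : 2 ∉ A 0
    · simp only [if_pos c]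
      exact fw_meas u h τ A
    · simp only [if_neg c]
      exact measurable_const
  · by_cases c : 2 ∉ a
    · simp only [if_pos c]
      exact ENNReal.measurable_ofReal.comp
        (kA_meas_comp u h a measurable_const measurable_fst measurable_snd)
    · simp only [if_neg c]
      exact measurable_const
  · show (if 2 ∉ (Fin.cons a A : Fin (m + 2) → Finset (Fin 3)) 0 then _ else _) = _
    rw [Fin.cons_zero]
    by_cases c : 2 ∉ a
    · rw [if_pos c, if_pos c]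
      exact wt_cons u h τ hτ a A x0 x1 z
    · rw [if_neg c, if_neg c, zero_mul]
  · by_cases c : 2 ∉ a
    · rw [if_pos c]
      exact ENNReal.ofReal_ne_top
    · rw [if_neg c]
      exact ENNReal.zero_ne_top

theorem core2 (hR : RchStatement) (hu : ∀ s, ‖u s‖ = 1) (hp : ip (u 0) (u 2) = 0)
    (τ : Fin (m + 2) → ℝ) (hτ : ∀ j, 0 < τ j) (S : ℂ → ℂ → Prop)
    (hS : MeasurableSet {p : ℂ × ℂ | S p.1 p.2})
    (hS1 : ∀ x y, S x y → ip (u 0) x < h 0 ∧ ip (u 0) y < h 0) :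
    Ms u h τ (fun x A => (Fj {1} A 0 ∧ ∀ j, Disjoint (A j) {2}) ∧ S (x 0) (x 1))
      ≤ LK2 u h τ S ∧
    LK2 u h τ S
      ≤ Ms u h τ (fun x A => (Fj {1} A 0 ∧ ∀ j, Disjoint (A j) {2}) ∧ S (x 0) (x 1))
        + Mtw u h τ (fun x A => Bad3 {1} {2} A ∧ S (x 0) (x 1)) := by
  classical
  have hrf : Measurable fun z : ℂ => rf u h 0 z := (H15.rl_cont).measurable
  have hpm : Measurable fun p : ℂ × ℂ => ENNReal.ofReal (pB u h {2} (τ 0) p.1 p.2) :=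
    ENNReal.measurable_ofReal.comp (pB2_meas u h (τ 0))
  -- the mass of the bad reflected configurations
  have eM : Mtw u h τ (fun x A => Bad3 {1} {2} A ∧ S (x 0) (x 1))
      = ∫⁻ p : ℂ × ℂ, if S p.1 p.2 then ENNReal.ofReal (G (τ 0) (p.1 - p.2))
        * Cs (uc u) (hc h) (Rc m) (fun j => τ j.succ) (rf u h 0 p.2) p.1 else 0 := by
    rw [← Mtw_two u h τ hτ (Rc m) S hS]
    rw [Mtw_eq, Mtw_eq]
    refine Mg_congr _ fun x A hw => ?_
    have c : A 0 = ∅ := by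
      by_contra c
      exact hw (if_neg c)
    rw [Rc_iff A c]
  -- the mass of the chains
  have eP : Ms u h τ (fun x A => (Fj {1} A 0 ∧ ∀ j, Disjoint (A j) {2}) ∧ S (x 0) (x 1))
      = ∫⁻ p : ℂ × ℂ, if S p.1 p.2 then ENNReal.ofReal (pB u h {2} (τ 0) p.1 p.2)
        * Cs (uc u) (hc h) (Qe m) (fun j => τ j.succ) (rf u h 0 p.2) p.1 else 0 := by
    rw [Ms_two2 τ hτ S hS]
    refine lintegral_congr fun p => ?_
    by_cases c : S p.1 p.2
    · rw [if_pos c, if_pos c, hR u h hu hp m (fun j => τ j.succ) (fun j => hτ _) p.2 p.1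
        (hS1 _ _ c).2]
    · rw [if_neg c, if_neg c]
  have eK : LK2 u h τ S
      = ∫⁻ p : ℂ × ℂ, if S p.1 p.2 then ENNReal.ofReal (pB u h {2} (τ 0) p.1 p.2)
        * Cs (uc u) (hc h) (Vis {1} {2}) (fun j => τ j.succ) (rf u h 0 p.2) p.1 else 0 := by
    unfold LK2
    refine lintegral_congr fun p => ?_
    rw [Cs_vis _ _ _ _ _ (fun j => hτ _), kME_uc (by decide) (by decide)]
  have hcm : ∀ R : (Fin (m + 1) → Finset (Fin 3)) → Prop, Measurable fun p : ℂ × ℂ =>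
      Cs (uc u) (hc h) R (fun j => τ j.succ) (rf u h 0 p.2) p.1 := fun R => by
    have := Measurable.comp (g := fun p : ℂ × ℂ => Cs (uc u) (hc h) R (fun j => τ j.succ) p.1 p.2)
      (f := fun p : ℂ × ℂ => (rf u h 0 p.2, p.1)) (Cs_meas (uc u) (hc h) R (fun j => τ j.succ))
      ((hrf.comp measurable_snd).prodMk measurable_fst)
    exact this
  constructor
  · rw [eP, eK]
    refine lintegral_mono fun p => ?_
    show (if S p.1 p.2 then ENNReal.ofReal (pB u h {2} (τ 0) p.1 p.2)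
        * Cs (uc u) (hc h) (Qe m) (fun j => τ j.succ) (rf u h 0 p.2) p.1 else 0)
      ≤ if S p.1 p.2 then ENNReal.ofReal (pB u h {2} (τ 0) p.1 p.2)
        * Cs (uc u) (hc h) (Vis {1} {2}) (fun j => τ j.succ) (rf u h 0 p.2) p.1 else 0
    by_cases c : S p.1 p.2
    · rw [if_pos c, if_pos c]
      exact mul_le_mul' le_rfl (cs_le2 _ _ _)
    · rw [if_neg c, if_neg c]
  · have hm1 : Measurable fun p : ℂ × ℂ => if S p.1 p.2 then
        ENNReal.ofReal (pB u h {2} (τ 0) p.1 p.2)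
        * Cs (uc u) (hc h) (Qe m) (fun j => τ j.succ) (rf u h 0 p.2) p.1 else 0 :=
      Measurable.ite hS (hpm.mul (hcm (Qe m))) measurable_const
    rw [eP, eK, eM, ← lintegral_add_left hm1]
    refine lintegral_mono fun p => ?_
    show (if S p.1 p.2 then ENNReal.ofReal (pB u h {2} (τ 0) p.1 p.2)
        * Cs (uc u) (hc h) (Vis {1} {2}) (fun j => τ j.succ) (rf u h 0 p.2) p.1 else 0)
      ≤ (if S p.1 p.2 then ENNReal.ofReal (pB u h {2} (τ 0) p.1 p.2)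
        * Cs (uc u) (hc h) (Qe m) (fun j => τ j.succ) (rf u h 0 p.2) p.1 else 0)
        + if S p.1 p.2 then ENNReal.ofReal (G (τ 0) (p.1 - p.2))
        * Cs (uc u) (hc h) (Rc m) (fun j => τ j.succ) (rf u h 0 p.2) p.1 else 0
    by_cases c : S p.1 p.2
    · rw [if_pos c, if_pos c, if_pos c]
      have hy : ¬ ip (uc u 0) p.1 < hc h 0 := by
        rw [uc0, hc0, ip_neg]
        have := (hS1 _ _ c).1
        linarith
      refine (mul_le_mul' le_rfl (le_cs2 (H20.norm_uc hu) (fun j => τ j.succ)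
        (fun j => hτ _) (rf u h 0 p.2) p.1 hy)).trans ?_
      rw [mul_add]
      refine add_le_add le_rfl (mul_le_mul' ?_ le_rfl)
      exact ENNReal.ofReal_le_ofReal (pB2_le u h (hτ 0) _ _)
    · rw [if_neg c, if_neg c, if_neg c, add_zero]

end Mass

/-! ### The main term as a difference -/

section Main

variable {u : Fin 3 → ℂ} {h : Fin 3 → ℝ} {O E : Finset (Fin 3)}

open Classical in
theorem main_eq2 {a s ξ : ℝ} (ha : 0 < a) (hs : 0 < s) (ξ1 δ ζ1 ζ2 : ℝ) :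
    (∀ P : ℂ → ℂ → Prop, (∫⁻ p : ℂ × ℂ, if P p.1 p.2 ∧ p.1 ∈ Rw ξ1 δ ζ1 ζ2 ∧ p.2 ∈ Rw ξ1 δ ζ1 ζ2
      then ENNReal.ofReal (pB u h {2} a p.1 p.2) * ENNReal.ofReal (kME u h O E s (rf u h 0 p.2) p.1)
      else 0) ≠ ⊤) ∧
    ∫ x in Rw ξ1 δ ζ1 ζ2, ∫ y in Rw ξ1 δ ζ1 ζ2, pB u h {2} a x y * (ch ξ y - ch ξ x)
        * kME u h O E s (rf u h 0 y) x
      = (∫⁻ p : ℂ × ℂ, if Up ξ p.1 p.2 ∧ p.1 ∈ Rw ξ1 δ ζ1 ζ2 ∧ p.2 ∈ Rw ξ1 δ ζ1 ζ2 then
          ENNReal.ofReal (pB u h {2} a p.1 p.2) * ENNReal.ofReal (kME u h O E s (rf u h 0 p.2) p.1)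
          else 0).toReal
        - (∫⁻ p : ℂ × ℂ, if Up ξ p.2 p.1 ∧ p.1 ∈ Rw ξ1 δ ζ1 ζ2 ∧ p.2 ∈ Rw ξ1 δ ζ1 ζ2 then
          ENNReal.ofReal (pB u h {2} a p.1 p.2) * ENNReal.ofReal (kME u h O E s (rf u h 0 p.2) p.1)
          else 0).toReal := by
  set W : Set (ℂ × ℂ) := Rw ξ1 δ ζ1 ζ2 ×ˢ Rw ξ1 δ ζ1 ζ2 with hW
  have hWm : MeasurableSet W := (Rw_meas _ _ _ _).prod (Rw_meas _ _ _ _)
  have hWfin : volume W < ⊤ := by
    rw [hW, Measure.volume_eq_prod, Measure.prod_prod]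
    exact ENNReal.mul_lt_top (Rw_fin _ _ _ _) (Rw_fin _ _ _ _)
  set f : ℂ × ℂ → ℝ := fun p => pB u h {2} a p.1 p.2 * kME u h O E s (rf u h 0 p.2) p.1 with hf
  have hGn : ∀ x y, 0 ≤ pB u h {2} a x y := fun x y => pB2_nonneg u h ha x y
  have hfn : ∀ p, 0 ≤ f p := fun p => mul_nonneg (hGn _ _) (kME_nonneg hs _ _)
  have hfm : Measurable f := (pB2_meas u h a).mul (kME_meas s)
  set C : ℝ := 1 / (4 * Real.pi * a) * (1 / (4 * Real.pi * s)) with hC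
  have hfC : ∀ p, f p ≤ C := by
    intro p
    refine mul_le_mul ((pB2_le u h ha _ _).trans (G_le ha _)) ((kME_le hs _ _).trans (G_le hs _))
      (kME_nonneg hs _ _) ?_
    positivity
  have hfW : IntegrableOn f W := by
    refine Measure.integrableOn_of_bounded (M := C) hWfin.ne hfm.aestronglyMeasurable ?_
    refine Eventually.of_forall fun p => ?_
    rw [Real.norm_of_nonneg (hfn p)]
    exact hfC p
  -- pieces
  have key : ∀ P : ℂ × ℂ → Prop, MeasurableSet {p | P p} →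
      IntegrableOn (fun p => if P p then f p else 0) W ∧
      ∫ p in W, (if P p then f p else 0)
        = (∫⁻ p : ℂ × ℂ, if P p ∧ p.1 ∈ Rw ξ1 δ ζ1 ζ2 ∧ p.2 ∈ Rw ξ1 δ ζ1 ζ2 then
          ENNReal.ofReal (pB u h {2} a p.1 p.2) * ENNReal.ofReal (kME u h O E s (rf u h 0 p.2) p.1)
          else 0).toReal := by
    intro P hP
    have e1 : (fun p => if P p then f p else 0) = {p | P p}.indicator f := by
      funext p
      rw [Set.indicator_apply]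
      rfl
    constructor
    · rw [e1]
      exact hfW.indicator hP
    · rw [integral_eq_lintegral_of_nonneg_ae]
      · congr 1
        rw [← lintegral_indicator hWm]
        refine lintegral_congr fun p => ?_
        by_cases c : P p
        · by_cases c2 : p ∈ W
          · rw [Set.indicator_of_mem c2, if_pos c, if_pos ⟨c, c2.1, c2.2⟩]
            exact ENNReal.ofReal_mul (hGn _ _)
          · rw [Set.indicator_of_notMem c2, if_neg (fun h => c2 ⟨h.2.1, h.2.2⟩)]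
        · rw [if_neg (fun h => c h.1)]
          by_cases c2 : p ∈ W
          · rw [Set.indicator_of_mem c2, if_neg c, ENNReal.ofReal_zero]
          · rw [Set.indicator_of_notMem c2]
      · refine Eventually.of_forall fun p => ?_
        show 0 ≤ if P p then f p else 0
        split_ifs
        · exact hfn p
        · exact le_rfl
      · rw [e1]
        exact (hfm.indicator hP).aestronglyMeasurable
  refine ⟨fun P => ?_, ?_⟩
  · have h1 : (∫⁻ p : ℂ × ℂ, if P p.1 p.2 ∧ p.1 ∈ Rw ξ1 δ ζ1 ζ2 ∧ p.2 ∈ Rw ξ1 δ ζ1 ζ2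
      then ENNReal.ofReal (pB u h {2} a p.1 p.2) * ENNReal.ofReal (kME u h O E s (rf u h 0 p.2) p.1)
      else 0) ≤ ∫⁻ _ in W, ENNReal.ofReal C := by
      rw [← lintegral_indicator hWm]
      refine lintegral_mono fun p => ?_
      show (if P p.1 p.2 ∧ p.1 ∈ Rw ξ1 δ ζ1 ζ2 ∧ p.2 ∈ Rw ξ1 δ ζ1 ζ2
        then ENNReal.ofReal (pB u h {2} a p.1 p.2)
          * ENNReal.ofReal (kME u h O E s (rf u h 0 p.2) p.1)
        else 0) ≤ W.indicator (fun _ => ENNReal.ofReal C) p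
      by_cases c : P p.1 p.2 ∧ p.1 ∈ Rw ξ1 δ ζ1 ζ2 ∧ p.2 ∈ Rw ξ1 δ ζ1 ζ2
      · have hpW : p ∈ W := ⟨c.2.1, c.2.2⟩
        rw [if_pos c, Set.indicator_of_mem hpW, ← ENNReal.ofReal_mul (hGn _ _)]
        exact ENNReal.ofReal_le_ofReal (hfC p)
      · rw [if_neg c]
        exact zero_le
    refine ne_top_of_le_ne_top ?_ h1
    rw [setLIntegral_const]
    exact ENNReal.mul_ne_top ENNReal.ofReal_ne_top hWfin.ne
  · obtain ⟨k1, k2⟩ := key (fun p => Up ξ p.1 p.2) (Up_meas ξ)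
    obtain ⟨k3, k4⟩ := key (fun p => Up ξ p.2 p.1) (Up_meas' ξ)
    have e1 : ∀ x y : ℂ, pB u h {2} a x y * (ch ξ y - ch ξ x) * kME u h O E s (rf u h 0 y) x
        = (if Up ξ x y then f (x, y) else 0) - if Up ξ y x then f (x, y) else 0 := by
      intro x y
      rw [← ch_sub]
      show _ = (ch ξ y - ch ξ x) * (pB u h {2} a x y * kME u h O E s (rf u h 0 y) x)
      ring
    simp only [e1]
    have e2 := setIntegral_prod (μ := (volume : Measure ℂ)) (ν := (volume : Measure ℂ))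
      (s := Rw ξ1 δ ζ1 ζ2) (t := Rw ξ1 δ ζ1 ζ2)
      (fun p : ℂ × ℂ => (if Up ξ p.1 p.2 then f p else 0) - if Up ξ p.2 p.1 then f p else 0)
      (k1.sub k3)
    refine Eq.trans e2.symm ?_
    refine Eq.trans (integral_sub k1 k3) ?_
    exact congrArg₂ (fun a b : ℝ => a - b) k2 k4

end Main

/-! ### The standard configuration -/

theorem us2 (α : ℝ) : us α 0 2 = -I := by
  unfold us
  rw [if_neg (by decide), if_neg (by decide)]
  simp

theorem us0 (α : ℝ) : us α 0 0 = 1 := by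
  unfold us
  simp

theorem hh2 (d : ℝ) : hh d 2 = 0 := by
  unfold hh
  simp

theorem ip_us2 (α : ℝ) (z : ℂ) : ip (us α 0 2) z = -z.im := by
  rw [us2]
  unfold Pool.Agent.H62T.ip
  simp

theorem ip_perp (α : ℝ) : ip (us α 0 0) (us α 0 2) = 0 := by
  rw [us0, us2]
  unfold Pool.Agent.H62T.ip
  simp

theorem rf_us2 (α d : ℝ) (y : ℂ) : rf (us α 0) (hh d) 2 y = (starRingEnd ℂ) y := by
  unfold Pool.Agent.H60K.rf
  rw [ip_us2, hh2, us2]
  apply Complex.ext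
  · simp
  · simp
    ring

theorem pB2_us {α d t : ℝ} (ht : 0 < t) {x y : ℂ} (hx : 0 < x.im) (hy : 0 < y.im) :
    pB (us α 0) (hh d) {2} t x y = G t (x - y) - G t (x - (starRingEnd ℂ) y) := by
  rw [pBs_in 2 (norm_us' α 0 2) ht, rf_us2]
  · rw [ip_us2, hh2]
    linarith
  · rw [ip_us2, hh2]
    linarith

open Classical in
/-- module REF -/
theorem ref (hR : RchStatement) : AH.RefStatement := by
  intro α d ξ1 δ ζ n _ τ hδ hξ hn hτ hfin
  obtain ⟨m, rfl⟩ : ∃ m, n = m + 2 := ⟨n - 2, by omega⟩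
  set u := us α 0 with hu
  set h := hh d with hh'
  have hun : ∀ s, ‖u s‖ = 1 := norm_us' α 0
  have hperp : ip (u 0) (u 2) = 0 := ip_perp α
  set T : (Fin (m + 2) → Finset (Fin 3)) → Prop := fun A => Fj {1} A 0 ∧ ∀ j, Disjoint (A j) {2}
    with hT
  have hTv : ∀ A, T A → Vis {0, 1} {2} A := by
    rintro A ⟨⟨k, hk0, hkn, hk, hkO⟩, hd⟩
    refine ⟨fun s hs => ?_, hd⟩
    rcases Finset.mem_insert.mp hs with rfl | hs
    · exact ⟨_, hk⟩
    · obtain ⟨l, -, -, hl⟩ := hkO s hs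
      exact ⟨_, hl⟩
  have hfT : Ms u h τ (fun _ A => T A) ≠ ⊤ := by
    refine ne_top_of_le_ne_top hfin ?_
    rw [Ms_eq, Ms_eq]
    exact Mg_mono _ fun _ A hA => hTv A hA
  set WW : ℂ → ℂ → Prop := fun x y => x ∈ Rw ξ1 δ ζ 0 ∧ y ∈ Rw ξ1 δ ζ 0 with hWW
  have hWm : MeasurableSet {p : ℂ × ℂ | WW p.1 p.2} := W_meas ξ1 δ ζ 0
  set Sp : ℂ → ℂ → Prop := fun x y => Up ξ1 x y ∧ x ∈ Rw ξ1 δ ζ 0 ∧ y ∈ Rw ξ1 δ ζ 0 with hSp
  set Sm : ℂ → ℂ → Prop := fun x y => Up ξ1 y x ∧ x ∈ Rw ξ1 δ ζ 0 ∧ y ∈ Rw ξ1 δ ζ 0 with hSm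
  have hSpm : MeasurableSet {p : ℂ × ℂ | Sp p.1 p.2} := (Up_meas ξ1).inter hWm
  have hSmm : MeasurableSet {p : ℂ × ℂ | Sm p.1 p.2} := (Up_meas' ξ1).inter hWm
  have hWip : ∀ x y, WW x y → ip (u 0) x < h 0 ∧ ip (u 0) y < h 0 := by
    rintro x y ⟨hx, hy⟩
    rw [hu, hh', ip_us0, ip_us0, hh0]
    have h1 := (abs_lt.mp hx.1).2
    have h2 := (abs_lt.mp hy.1).2
    constructor <;> linarith
  obtain ⟨p1, p2⟩ := core2 hR hun hperp τ hτ Sp hSpm (fun x y hxy => hWip x y hxy.2)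
  obtain ⟨q1, q2⟩ := core2 hR hun hperp τ hτ Sm hSmm (fun x y hxy => hWip x y hxy.2)
  -- names of the masses
  set a1 := Ms u h τ (fun x A => (Fj {1} A 0 ∧ ∀ j, Disjoint (A j) {2}) ∧ Sp (x 0) (x 1)) with ha1
  set a2 := Ms u h τ (fun x A => (Fj {1} A 0 ∧ ∀ j, Disjoint (A j) {2}) ∧ Sm (x 0) (x 1)) with ha2
  set m1 := Mtw u h τ (fun x A => Bad3 {1} {2} A ∧ Sp (x 0) (x 1)) with hm1
  set m2 := Mtw u h τ (fun x A => Bad3 {1} {2} A ∧ Sm (x 0) (x 1)) with hm2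
  set e1 := Ms u h τ (fun x A => T A ∧ Up ξ1 (x 0) (x 1) ∧ ¬ WW (x 0) (x 1)) with he1
  set e2 := Ms u h τ (fun x A => T A ∧ Up ξ1 (x 1) (x 0) ∧ ¬ WW (x 0) (x 1)) with he2
  have hevm : ∀ (P : (Fin (m + 2) → Finset (Fin 3)) → Prop) (S : ℂ → ℂ → Prop),
      MeasurableSet {p : ℂ × ℂ | S p.1 p.2} → ∀ A : Fin (m + 2) → Finset (Fin 3),
      MeasurableSet {x : Fin (m + 2) → ℂ | P A ∧ S (x 0) (x 1)} := by
    intro P S hS A
    by_cases c : P A
    · have := S_meas S hS m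
      simpa [c] using this
    · simp only [c, false_and, Set.ofPred_false, MeasurableSet.empty]
  -- decomposition of the flux
  have d1 : Ms u h τ (fun x A => T A ∧ Up ξ1 (x 0) (x 1)) = a1 + e1 := by
    rw [ha1, he1, Ms_eq, Ms_eq, Ms_eq]
    refine Mg_add _ (fw_meas u h τ) (hevm T Sp hSpm) (fun x A => ?_) (fun x A h1 h2 => ?_)
    · constructor
      · rintro ⟨h1, h2⟩
        by_cases c : WW (x 0) (x 1)
        · exact Or.inl ⟨h1, h2, c⟩
        · exact Or.inr ⟨h1, h2, c⟩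
      · rintro (⟨h1, h2⟩ | ⟨h1, h2, -⟩)
        · exact ⟨h1, h2.1⟩
        · exact ⟨h1, h2⟩
    · exact h2.2.2 h1.2.2
  have d2 : Ms u h τ (fun x A => T A ∧ Up ξ1 (x 1) (x 0)) = a2 + e2 := by
    rw [ha2, he2, Ms_eq, Ms_eq, Ms_eq]
    refine Mg_add _ (fw_meas u h τ) (hevm T Sm hSmm) (fun x A => ?_) (fun x A h1 h2 => ?_)
    · constructor
      · rintro ⟨h1, h2⟩
        by_cases c : WW (x 0) (x 1)
        · exact Or.inl ⟨h1, h2, c⟩
        · exact Or.inr ⟨h1, h2, c⟩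
      · rintro (⟨h1, h2⟩ | ⟨h1, h2, -⟩)
        · exact ⟨h1, h2.1⟩
        · exact ⟨h1, h2⟩
    · exact h2.2.2 h1.2.2
  have hsp : ∀ x y, Sp x y → ¬ Sm x y := fun x y h1 h2 => by
    have := h1.1.1
    have := h2.1.2
    linarith
  have hnwm : MeasurableSet {p : ℂ × ℂ | ¬ WW p.1 p.2} := hWm.compl
  have r1 : e1 + e2 ≤ Ms u h τ (fun x A => Fj {1} A 0 ∧ (∀ j, Disjoint (A j) {2}) ∧
      ch ξ1 (x 0) ≠ ch ξ1 (x 1) ∧ ¬ (x 0 ∈ Rw ξ1 δ ζ 0 ∧ x 1 ∈ Rw ξ1 δ ζ 0)) := by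
    rw [he1, he2, Ms_eq, Ms_eq, Ms_eq]
    refine le_of_eq (Eq.symm (Mg_add _ (fw_meas u h τ)
      (hevm T (fun x y => Up ξ1 x y ∧ ¬ WW x y) ((Up_meas ξ1).inter hnwm))
      (fun x A => ?_) (fun x A h1 h2 => ?_)))
    · rw [ch_ne]
      constructor
      · rintro ⟨h1, h2, h3 | h3, h4⟩
        · exact Or.inl ⟨⟨h1, h2⟩, h3, h4⟩
        · exact Or.inr ⟨⟨h1, h2⟩, h3, h4⟩
      · rintro (⟨⟨h1, h2⟩, h3, h4⟩ | ⟨⟨h1, h2⟩, h3, h4⟩)
        · exact ⟨h1, h2, Or.inl h3, h4⟩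
        · exact ⟨h1, h2, Or.inr h3, h4⟩
    · have := h1.2.1.1
      have := h2.2.1.2
      linarith
  have r3 : m1 + m2 ≤ Mtw u h τ (fun x A => Bad3 {1} {2} A ∧
      ch ξ1 (x 0) ≠ ch ξ1 (x 1) ∧ x 0 ∈ Rw ξ1 δ ζ 0 ∧ x 1 ∈ Rw ξ1 δ ζ 0) := by
    rw [hm1, hm2, Mtw_eq, Mtw_eq, Mtw_eq]
    refine le_of_eq (Eq.symm (Mg_add _ (fww_meas u h τ)
      (hevm (fun A => Bad3 {1} {2} A) Sp hSpm) (fun x A => ?_) (fun x A h1 h2 => ?_)))
    · rw [ch_ne]
      constructor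
      · rintro ⟨h1, h3 | h3, h4⟩
        · exact Or.inl ⟨h1, h3, h4⟩
        · exact Or.inr ⟨h1, h3, h4⟩
      · rintro (⟨h1, h3, h4⟩ | ⟨h1, h3, h4⟩)
        · exact ⟨h1, Or.inl h3, h4⟩
        · exact ⟨h1, Or.inr h3, h4⟩
    · exact hsp _ _ h1.2 h2.2
  refine le_trans ?_ (add_le_add r1 r3)
  -- finiteness
  have hle : ∀ S : (Fin (m + 2) → ℂ) → (Fin (m + 2) → Finset (Fin 3)) → Prop,
      (∀ x A, S x A → T A) → Ms u h τ S ≠ ⊤ := by
    intro S hS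
    refine ne_top_of_le_ne_top hfT ?_
    rw [Ms_eq, Ms_eq]
    exact Mg_mono _ fun x A hx => hS x A hx
  have fa1 : a1 ≠ ⊤ := hle _ fun x A hx => hx.1
  have fa2 : a2 ≠ ⊤ := hle _ fun x A hx => hx.1
  have fe1 : e1 ≠ ⊤ := hle _ fun x A hx => hx.1
  have fe2 : e2 ≠ ⊤ := hle _ fun x A hx => hx.1
  by_cases hbt : m1 + m2 = ⊤
  · rw [hbt, add_top]
    exact le_top
  have fm1 : m1 ≠ ⊤ := fun hc => hbt (by rw [hc]; exact top_add _)
  have fm2 : m2 ≠ ⊤ := fun hc => hbt (by rw [hc]; exact add_top _)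
  -- the main term
  have hsum : ∑ j, τ j - τ 0 = ∑ j : Fin (m + 1), τ j.succ := by
    rw [Fin.sum_univ_succ]
    ring
  have hspos : 0 < ∑ j : Fin (m + 1), τ j.succ :=
    Finset.sum_pos (fun j _ => hτ _) Finset.univ_nonempty
  obtain ⟨n1, n2⟩ := main_eq2 (u := u) (h := h) (O := {1}) (E := {2}) (ξ := ξ1) (hτ 0) hspos
    ξ1 δ ζ 0
  have hLp : LK2 u h τ Sp = ∫⁻ p : ℂ × ℂ, if Up ξ1 p.1 p.2 ∧ p.1 ∈ Rw ξ1 δ ζ 0 ∧
      p.2 ∈ Rw ξ1 δ ζ 0 then ENNReal.ofReal (pB u h {2} (τ 0) p.1 p.2) * ENNReal.ofReal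
        (kME u h {1} {2} (∑ j : Fin (m + 1), τ j.succ) (rf u h 0 p.2) p.1) else 0 :=
    lintegral_congr fun p => ite_dec _ _ _ _
  have hLm : LK2 u h τ Sm = ∫⁻ p : ℂ × ℂ, if Up ξ1 p.2 p.1 ∧ p.1 ∈ Rw ξ1 δ ζ 0 ∧
      p.2 ∈ Rw ξ1 δ ζ 0 then ENNReal.ofReal (pB u h {2} (τ 0) p.1 p.2) * ENNReal.ofReal
        (kME u h {1} {2} (∑ j : Fin (m + 1), τ j.succ) (rf u h 0 p.2) p.1) else 0 :=
    lintegral_congr fun p => ite_dec _ _ _ _
  have fk1 : LK2 u h τ Sp ≠ ⊤ := by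
    rw [hLp]
    exact n1 (fun x y => Up ξ1 x y)
  have fk2 : LK2 u h τ Sm ≠ ⊤ := by
    rw [hLm]
    exact n1 (fun x y => Up ξ1 y x)
  have hTC : TC u h τ {1} {2} ξ1 = (a1 + e1).toReal - (a2 + e2).toReal := by
    rw [← d1, ← d2]
    refine Eq.trans ?_ (flux_eq u h τ hτ T ξ1 hfT)
    unfold TC
    refine Finset.sum_congr rfl fun A _ => integral_congr_ae (Eventually.of_forall fun x => ?_)
    exact congrArg (fun c : ℝ => (ch ξ1 (x 1) - ch ξ1 (x 0)) * c) (ite_dec _ _ _ _)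
  have hTT : TT0 α d ξ1 δ ζ (τ 0) (∑ j, τ j)
      = (LK2 u h τ Sp).toReal - (LK2 u h τ Sm).toReal := by
    unfold TT0
    rw [hsum, hLp, hLm, ← n2]
    have him : ∀ x ∈ Rw ξ1 δ ζ 0, 0 < x.im := by
      intro x hx
      have := hx.2.1
      linarith
    refine setIntegral_congr_fun (Rw_meas ξ1 δ ζ 0) fun x hx => ?_
    refine setIntegral_congr_fun (Rw_meas ξ1 δ ζ 0) fun y hy => ?_
    show _ = pB u h {2} (τ 0) x y * (ch ξ1 y - ch ξ1 x) * _
    rw [pB2_us (hτ 0) (him x hx) (him y hy)]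
  have t1 := ENNReal.toReal_mono fk1 p1
  have t2 := ENNReal.toReal_mono (ENNReal.add_ne_top.mpr ⟨fa1, fm1⟩) p2
  have t3 := ENNReal.toReal_mono fk2 q1
  have t4 := ENNReal.toReal_mono (ENNReal.add_ne_top.mpr ⟨fa2, fm2⟩) q2
  rw [ENNReal.toReal_add fa1 fm1] at t2
  rw [ENNReal.toReal_add fa2 fm2] at t4
  have fall : e1 + e2 + (m1 + m2) ≠ ⊤ :=
    ENNReal.add_ne_top.mpr ⟨ENNReal.add_ne_top.mpr ⟨fe1, fe2⟩, hbt⟩
  rw [← ENNReal.ofReal_toReal fall]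
  refine ENNReal.ofReal_le_ofReal ?_
  rw [ENNReal.toReal_add (ENNReal.add_ne_top.mpr ⟨fe1, fe2⟩) hbt, ENNReal.toReal_add fe1 fe2,
    ENNReal.toReal_add fm1 fm2, hTC, hTT,
    ENNReal.toReal_add fa1 fe1, ENNReal.toReal_add fa2 fe2]
  have g1 : 0 ≤ e1.toReal := ENNReal.toReal_nonneg
  have g2 : 0 ≤ e2.toReal := ENNReal.toReal_nonneg
  have g3 : 0 ≤ m1.toReal := ENNReal.toReal_nonneg
  have g4 : 0 ≤ m2.toReal := ENNReal.toReal_nonneg
  rw [abs_le]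
  constructor <;> linarith

end Pool.Agent.XQ.AH.H18
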