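import Pool.Agent.Helper18_XQ.Cut4

set_option autoImplicit false

namespace Pool.Agent.XQ.K4.H18

open MeasureTheory Complex Filter Topology Pool.Agent.H62T Pool.Agent.H16F Pool.Agent.XQ.K4
open scoped ENNReal NNReal

section
variable (u : Fin 4 → ℂ) (h : Fin 4 → ℝ) {n : ℕ} [NeZero n] (τ : Fin n → ℝ)

theorem Ms_le_sum {ι : Type} (s : Finset ι)
    (P : (Fin n → ℂ) → (Fin n → Finset (Fin 4)) → Prop)
    (Q : ι → (Fin n → ℂ) → (Fin n → Finset (Fin 4)) → Prop)
    (hQ : ∀ i A, MeasurableSet {x | Q i x A})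
    (hP : ∀ x A, P x A → ∃ i ∈ s, Q i x A) :
    Ms u h τ P ≤ ∑ i ∈ s, Ms u h τ (Q i) := by
  classical
  unfold Ms
  rw [Finset.sum_comm]
  refine Finset.sum_le_sum fun A _ => ?_
  rw [← lintegral_finsetSum]
  · refine lintegral_mono fun x => ?_
    split_ifs with hx
    · obtain ⟨i, hi, hi'⟩ := hP x A hx
      refine le_trans ?_ (Finset.single_le_sum (f := fun i => if Q i x A then
        ENNReal.ofReal (wt u h τ x A) else 0) (fun _ _ => zero_le) hi)
      simp only [if_pos hi']
      exact le_rfl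
    · exact zero_le
  · intro i _
    exact Measurable.ite (hQ i A) (ENNReal.measurable_ofReal.comp (wt_meas u h τ A))
      measurable_const

theorem Ms_le_add (P Q R : (Fin n → ℂ) → (Fin n → Finset (Fin 4)) → Prop)
    (hQ : ∀ A, MeasurableSet {x | Q x A})
    (hP : ∀ x A, P x A → Q x A ∨ R x A) :
    Ms u h τ P ≤ Ms u h τ Q + Ms u h τ R := by
  classical
  unfold Ms
  rw [← Finset.sum_add_distrib]
  refine Finset.sum_le_sum fun A _ => ?_
  rw [← lintegral_add_left]
  · refine lintegral_mono fun x => ?_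
    by_cases hx : P x A
    · rcases hP x A hx with h1 | h1
      · simp only [if_pos hx, if_pos h1]
        exact le_self_add
      · simp only [if_pos hx, if_pos h1]
        exact le_add_self
    · simp only [if_neg hx]
      exact zero_le
  · exact Measurable.ite (hQ A) (ENNReal.measurable_ofReal.comp (wt_meas u h τ A))
      measurable_const

end

theorem rot_meas {n : ℕ} [NeZero n] (j : Fin n) :
    Measurable (rot j : (Fin n → ℂ) → (Fin n → ℂ)) := by
  rw [measurable_pi_iff]
  intro i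
  exact measurable_pi_apply (i + j)

theorem dur_pos {n : ℕ} [NeZero n] (τ : Fin n → ℝ) (hτ : ∀ j, 0 < τ j) {a b : ℕ} (h : a < b) :
    0 < dur τ a b :=
  Finset.sum_pos (fun _ _ => hτ _) (Finset.nonempty_Ico.mpr h)

theorem rvw_meas {S : Fin 3 → Set ℂ} (hS : ∀ i, MeasurableSet (S i)) :
    ∀ i, MeasurableSet (rvw S i) := by
  intro i
  fin_cases i
  · exact hS 0
  · exact hS 2
  · exact hS 1

theorem upp (hRot : RotStatement) (hRev : RevStatement) : UppStatement := by
  classical
  intro u h n _ τ Mt Et M E S hu hτ hS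
  have h1 : Vt u h Mt Et (∑ j, τ j) = Ms u h τ (fun _ A => Vis Mt Et A) := by
    unfold Vt
    exact blv u h n τ hτ Mt Et
  rw [h1]
  have hPm : ∀ (M E : Fin 3 → Finset (Fin 4)) (S : Fin 3 → Set ℂ),
      (∀ i, MeasurableSet (S i)) → ∀ (j : Fin n) (a b : ℕ) (A : Fin n → Finset (Fin 4)),
      MeasurableSet {x : Fin n → ℂ | PA M E S a b (rot j x) (rot j A)} :=
    fun M E S hS j a b A => (rot_meas j) (PA_meas M E S hS a b (rot j A))
  have hGm : ∀ A, MeasurableSet {x : Fin n → ℂ | Gd M E S x A} := by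
    intro A
    have : {x : Fin n → ℂ | Gd M E S x A} = ⋃ j : Fin n, ⋃ a : ℕ, ⋃ b : ℕ,
        {x | (0 < a ∧ a < b ∧ b < n) ∧ (PA M E S a b (rot j x) (rot j A) ∨
          PA (rv M) (rv E) (rvw S) a b (rot j x) (rot j A))} := by
      ext x
      simp only [Gd, Set.mem_ofPred_eq, Set.mem_iUnion, and_assoc]
    rw [this]
    refine MeasurableSet.iUnion fun j => MeasurableSet.iUnion fun a => MeasurableSet.iUnion
      fun b => ?_
    exact (MeasurableSet.const _).inter ((hPm M E S hS j a b A).union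
      (hPm _ _ _ (rvw_meas hS) j a b A))
  refine (Ms_le_add u h τ _ (fun x A => Gd M E S x A)
    (fun x A => Vis Mt Et A ∧ ¬ Gd M E S x A) hGm ?_).trans ?_
  · intro x A hx
    by_cases hG : Gd M E S x A
    · exact Or.inl hG
    · exact Or.inr ⟨hx, hG⟩
  · refine add_le_add ?_ le_rfl
    let s : Finset (Fin n × ℕ × ℕ) := (Finset.univ ×ˢ (Finset.range n ×ˢ Finset.range n)).filter
      (fun i => 0 < i.2.1 ∧ i.2.1 < i.2.2)
    refine (Ms_le_sum u h τ s _ (fun i x A => PA M E S i.2.1 i.2.2 (rot i.1 x) (rot i.1 A) ∨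
      PA (rv M) (rv E) (rvw S) i.2.1 i.2.2 (rot i.1 x) (rot i.1 A)) ?_ ?_).trans ?_
    · intro i A
      exact (hPm M E S hS i.1 i.2.1 i.2.2 A).union (hPm _ _ _ (rvw_meas hS) i.1 i.2.1 i.2.2 A)
    · rintro x A ⟨j, a, b, ha, hab, hb, hP⟩
      refine ⟨(j, a, b), ?_, hP⟩
      rw [Finset.mem_filter, Finset.mem_product, Finset.mem_product, Finset.mem_range,
        Finset.mem_range]
      exact ⟨⟨Finset.mem_univ _, hab.trans hb, hb⟩, ha, hab⟩
    · have hS2 : SumW (W3 u h M E S) τ = ∑ i ∈ s,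
          (W3 u h M E S (dur (rot i.1 τ) 0 i.2.1) (dur (rot i.1 τ) i.2.1 i.2.2)
            (dur (rot i.1 τ) i.2.2 n) + W3 u h M E S (dur (rot i.1 τ) i.2.2 n)
            (dur (rot i.1 τ) i.2.1 i.2.2) (dur (rot i.1 τ) 0 i.2.1)) := by
        unfold SumW
        rw [Finset.sum_filter, Finset.sum_product]
        refine Finset.sum_congr rfl fun j _ => ?_
        rw [Finset.sum_product]
      rw [hS2]
      refine Finset.sum_le_sum fun i hi => ?_
      obtain ⟨j, a, b⟩ := i
      rw [Finset.mem_filter, Finset.mem_product, Finset.mem_product, Finset.mem_range,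
        Finset.mem_range] at hi
      obtain ⟨⟨-, -, hb⟩, ha, hab⟩ := hi
      simp only at hb ha hab
      have hτj : ∀ k, 0 < rot j τ k := fun k => hτ _
      refine (Ms_le_add u h τ _ (fun x A => PA M E S a b (rot j x) (rot j A))
        (fun x A => PA (rv M) (rv E) (rvw S) a b (rot j x) (rot j A))
        (hPm M E S hS j a b) (fun x A hx => hx)).trans (le_of_eq ?_)
      congr 1
      · rw [hRot u h n τ j (PA M E S a b)]
        exact cut u h n (rot j τ) M E S a b hτj ha hab hb hS
      · rw [hRot u h n τ j (PA (rv M) (rv E) (rvw S) a b),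
          cut u h n (rot j τ) _ _ _ a b hτj ha hab hb (rvw_meas hS)]
        exact hRev u h M E S _ _ _ hu (dur_pos _ hτj ha) (dur_pos _ hτj hab)
          (dur_pos _ hτj hb) hS

end Pool.Agent.XQ.K4.H18
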